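import Pool.Agent.TRF.FuncEq
import Pool.Agent.CMZ.LFun

/-!
# The L-function of a class group character of a totally real field
-/

open scoped NumberField nonZeroDivisors
open NumberField NumberField.InfinitePlace NumberField.mixedEmbedding NumberField.Units
  NumberField.Units.dirichletUnitTheorem Pool.ZD Pool.Agent.CMZ

namespace Pool.Agent.TRF

set_option linter.unusedSectionVars false

variable (K : Type) [Field K] [NumberField K]

theorem chi_norm (χ : ClassGroup (𝓞 K) →* ℂ) (A : ClassGroup (𝓞 K)) : ‖χ A‖ = 1 := by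
  have h1 : (χ A) ^ Fintype.card (ClassGroup (𝓞 K)) = 1 := by
    rw [← map_pow, pow_card_eq_one, map_one]
  exact Complex.norm_eq_one_of_pow_eq_one h1 Fintype.card_ne_zero

theorem cv_norm (χ : ClassGroup (𝓞 K) →* ℂ) (I : II K) : ‖cv K χ I‖ = 1 := chi_norm K χ _

theorem chi_mul_conj (χ : ClassGroup (𝓞 K) →* ℂ) (A : ClassGroup (𝓞 K)) :
    χ A * (starRingEnd ℂ) (χ A) = 1 := by
  rw [Complex.mul_conj, Complex.normSq_eq_norm_sq, chi_norm]
  norm_num

theorem chi_inv (χ : ClassGroup (𝓞 K) →* ℂ) (A : ClassGroup (𝓞 K)) :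
    χ A⁻¹ = (starRingEnd ℂ) (χ A) := by
  have h1 : χ A * χ A⁻¹ = 1 := by rw [← map_mul, mul_inv_cancel, map_one]
  have h2 := chi_mul_conj K χ A
  have h3 : χ A ≠ 0 := left_ne_zero_of_mul_eq_one h1
  exact mul_left_cancel₀ h3 (h1.trans h2.symm)

theorem sum_chi (χ : ClassGroup (𝓞 K) →* ℂ) (hχ : χ ≠ 1) : ∑ A : ClassGroup (𝓞 K), χ A = 0 := by
  obtain ⟨B, hB⟩ : ∃ B, χ B ≠ 1 := by
    by_contra h
    push Not at h
    exact hχ (MonoidHom.ext h)
  have h1 : χ B * ∑ A : ClassGroup (𝓞 K), χ A = ∑ A : ClassGroup (𝓞 K), χ A := by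
    rw [Finset.mul_sum]
    simp_rw [← map_mul]
    exact Equiv.sum_comp (Equiv.mulLeft B) (fun A => χ A)
  have h2 : (χ B - 1) * ∑ A : ClassGroup (𝓞 K), χ A = 0 := by rw [sub_mul, h1, one_mul, sub_self]
  exact (mul_eq_zero.1 h2).resolve_left (sub_ne_zero.2 hB)

/-- Sums over all ideals are sums over the classes. -/
theorem tsum_cls (f : II K → ℂ) (hf : Summable f) :
    ∑' I : II K, f I = ∑ A : ClassGroup (𝓞 K), ∑' I : Cls K A, f I := by
  classical
  let e : (Σ A : ClassGroup (𝓞 K), Cls K A) ≃ II K := Equiv.sigmaFiberEquiv _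
  rw [← e.tsum_eq f]
  have h1 : Summable fun q : (Σ A : ClassGroup (𝓞 K), Cls K A) => f (e q) :=
    (e.summable_iff (f := f)).2 hf
  rw [h1.tsum_sigma, tsum_fintype]
  rfl

variable [IsTotallyReal K]

/-- The sum over a class. -/
noncomputable def SA (A : ClassGroup (𝓞 K)) (y : ℝ) : ℝ := ∑' I : Cls K A, kar K (nm K I * y)

theorem chi_summable (χ : ClassGroup (𝓞 K) →* ℂ) {y : ℝ} (hy : 0 < y) :
    Summable fun I : II K => cv K χ I * (kar K (nm K I * y) : ℂ) := by
  refine Summable.of_norm_bounded (kar_summable K hy) fun I => ?_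
  rw [norm_mul, cv_norm, one_mul, Complex.norm_real, Real.norm_of_nonneg (kar_nonneg K _)]

theorem sum_classes (χ : ClassGroup (𝓞 K) →* ℂ) {y : ℝ} (hy : 0 < y) :
    ∑' I : II K, cv K χ I * (kar K (nm K I * y) : ℂ) =
      ∑ A : ClassGroup (𝓞 K), χ A * ((SA K A y : ℝ) : ℂ) := by
  rw [tsum_cls K _ (chi_summable K χ hy)]
  refine Finset.sum_congr rfl fun A _ => ?_
  unfold SA
  rw [Complex.ofReal_tsum, ← tsum_mul_left]
  refine tsum_congr fun I => ?_
  unfold cv
  rw [I.2]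

theorem SA_eq : ∃ V : ℝ, ∀ {y : ℝ}, 0 < y → ∀ A : ClassGroup (𝓞 K),
    SA K A y = (y * √(DR K))⁻¹ * SA K (A⁻¹ * ClassGroup.mk0 (dI K)) (y * DR K)⁻¹ +
      V * ((y * √(DR K))⁻¹ - 1) := by
  classical
  have hw : (torsionOrder K : ℝ) ≠ 0 := by exact_mod_cast torsionOrder_ne_zero K
  refine ⟨2 ^ nn K * MeasureTheory.volume.real (FD K) / torsionOrder K, fun {y} hy A => ?_⟩
  have h := class_eq K A hy
  unfold SA
  apply mul_left_cancel₀ hw
  rw [h]
  field_simp

/-- The functional equation. -/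
theorem gr_eq (χ : ClassGroup (𝓞 K) →* ℂ) (hχ : χ ≠ 1) (v : ℝ) :
    gr K χ v = χ (ClassGroup.mk0 (dI K)) * (starRingEnd ℂ) (gr K χ (-v)) := by
  have hDpos : 0 < DR K := DR_pos K
  have hsD : 0 < √(DR K) := Real.sqrt_pos.2 hDpos
  have hsD2 : √(DR K) * √(DR K) = DR K := Real.mul_self_sqrt hDpos.le
  set y : ℝ := Real.exp v / √(DR K) with hydef
  have hy : 0 < y := by positivity
  have hy' : (y * DR K)⁻¹ = Real.exp (-v) / √(DR K) := by
    have h : y * DR K = Real.exp v * √(DR K) := by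
      calc y * DR K = y * (√(DR K) * √(DR K)) := by rw [hsD2]
        _ = Real.exp v * √(DR K) := by rw [hydef]; field_simp
    rw [h, mul_inv, Real.exp_neg, div_eq_mul_inv]
  have hys : y * √(DR K) = Real.exp v := by
    rw [hydef]; field_simp
  obtain ⟨V, hV⟩ := SA_eq K
  have hmain : ∑' I : II K, cv K χ I * (kar K (nm K I * y) : ℂ) =
      (((y * √(DR K))⁻¹ : ℝ) : ℂ) * χ (ClassGroup.mk0 (dI K)) *
        ∑ A : ClassGroup (𝓞 K), (starRingEnd ℂ) (χ A) * ((SA K A (y * DR K)⁻¹ : ℝ) : ℂ) := by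
    rw [sum_classes K χ hy]
    have h1 : ∀ A : ClassGroup (𝓞 K), χ A * ((SA K A y : ℝ) : ℂ) =
        (((y * √(DR K))⁻¹ : ℝ) : ℂ) * (χ A * ((SA K (A⁻¹ * ClassGroup.mk0 (dI K))
          (y * DR K)⁻¹ : ℝ) : ℂ)) + χ A * ((V * ((y * √(DR K))⁻¹ - 1) : ℝ) : ℂ) := by
      intro A
      rw [hV hy A]
      push_cast
      ring
    rw [Finset.sum_congr rfl fun A _ => h1 A, Finset.sum_add_distrib, ← Finset.sum_mul,
      sum_chi K χ hχ, zero_mul, add_zero, ← Finset.mul_sum, mul_assoc]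
    congr 1
    rw [Finset.mul_sum]
    let e : ClassGroup (𝓞 K) ≃ ClassGroup (𝓞 K) :=
      (Equiv.inv _).trans (Equiv.mulRight (ClassGroup.mk0 (dI K)))
    rw [← e.sum_comp (fun A => χ (ClassGroup.mk0 (dI K)) *
      ((starRingEnd ℂ) (χ A) * ((SA K A (y * DR K)⁻¹ : ℝ) : ℂ)))]
    refine Finset.sum_congr rfl fun A _ => ?_
    have h2 : e A = A⁻¹ * ClassGroup.mk0 (dI K) := rfl
    rw [h2, ← mul_assoc]
    congr 1
    rw [map_mul, map_mul, ← chi_inv K χ A⁻¹, inv_inv, mul_comm (χ A), ← mul_assoc,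
      chi_mul_conj, one_mul]
  have hgv : gr K χ v = (Real.exp (v / 2) : ℂ) *
      ∑' I : II K, cv K χ I * (kar K (nm K I * y) : ℂ) := by
    unfold gr
    congr 1
    apply tsum_congr
    intro I
    rw [hydef, mul_div_assoc]
  have hgv' : (starRingEnd ℂ) (gr K χ (-v)) = (Real.exp (-v / 2) : ℂ) *
      ∑ A : ClassGroup (𝓞 K), (starRingEnd ℂ) (χ A) * ((SA K A (y * DR K)⁻¹ : ℝ) : ℂ) := by
    have h3 : gr K χ (-v) = (Real.exp (-v / 2) : ℂ) *
        ∑' I : II K, cv K χ I * (kar K (nm K I * (y * DR K)⁻¹) : ℂ) := by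
      unfold gr
      congr 1
      apply tsum_congr
      intro I
      rw [hy', mul_div_assoc]
    rw [h3, sum_classes K χ (by positivity), map_mul, Complex.conj_ofReal, map_sum]
    congr 1
    refine Finset.sum_congr rfl fun A _ => ?_
    rw [map_mul, Complex.conj_ofReal]
  rw [hgv, hmain, hgv', hys]
  have hE : (Real.exp (v / 2) : ℂ) * (((Real.exp v)⁻¹ : ℝ) : ℂ) = (Real.exp (-v / 2) : ℂ) := by
    rw [← Complex.ofReal_mul, ← Real.exp_neg, ← Real.exp_add]
    congr 2
    ring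
  rw [← hE]
  ring

theorem gr_continuous (χ : ClassGroup (𝓞 K) →* ℂ) : Continuous (gr K χ) := by
  have hD : 0 < √(DR K) := Real.sqrt_pos.2 (DR_pos K)
  have hcont : ∀ V : ℝ, ContinuousOn
      (fun v : ℝ => ∑' I : II K, cv K χ I * (kar K (nm K I * Real.exp v / √(DR K)) : ℂ))
      (Set.Ioi V) := by
    intro V
    have hy : 0 < Real.exp V / √(DR K) := div_pos (Real.exp_pos V) hD
    refine continuousOn_tsum (u := fun I : II K => kar K (nm K I * (Real.exp V / √(DR K))))
      (fun I => ?_) (kar_summable K hy) (fun I v hv => ?_)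
    · refine Continuous.continuousOn (continuous_const.mul (Complex.continuous_ofReal.comp ?_))
      have hc : Continuous fun v : ℝ => nm K I * Real.exp v / √(DR K) := by fun_prop
      exact (kar_continuous K).comp_continuous hc fun v =>
        div_pos (mul_pos (nm_pos I) (Real.exp_pos v)) hD
    · rw [norm_mul, cv_norm, one_mul, Complex.norm_real, Real.norm_of_nonneg (kar_nonneg K _),
        mul_div_assoc]
      have hv' : 0 < Real.exp v / √(DR K) := div_pos (Real.exp_pos v) hD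
      refine kar_antitone K (mul_pos (nm_pos I) hy) (mul_pos (nm_pos I) hv') ?_
      refine mul_le_mul_of_nonneg_left ?_ (nm_pos I).le
      exact div_le_div_of_nonneg_right (Real.exp_le_exp.2 (le_of_lt hv)) hD.le
  rw [continuous_iff_continuousAt]
  intro v
  unfold gr
  refine ContinuousAt.mul ?_ ((hcont (v - 1)).continuousAt (Ioi_mem_nhds (by linarith)))
  exact (Complex.continuous_ofReal.comp (Real.continuous_exp.comp
    (continuous_id.div_const 2))).continuousAt

/-- Decay faster than any exponential for `v → ∞`. -/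
theorem gr_decay_pos (χ : ClassGroup (𝓞 K) →* ℂ) (b : ℝ) :
    ∃ C : ℝ, 0 < C ∧ ∀ v : ℝ, 0 ≤ v → ‖gr K χ v‖ ≤ C * Real.exp (-(b * v)) := by
  have hD : 0 < √(DR K) := Real.sqrt_pos.2 (DR_pos K)
  obtain ⟨C, hC, h⟩ := kar_sum_pow K (b := |b| + 2) (by linarith [abs_nonneg b])
  have hD' : 0 < √(DR K) ^ (|b| + 2) := Real.rpow_pos_of_pos hD _
  refine ⟨C * √(DR K) ^ (|b| + 2), by positivity, fun v hv => ?_⟩
  have hy : 0 < Real.exp v / √(DR K) := div_pos (Real.exp_pos v) hD
  have e1 : (Real.exp v / √(DR K)) ^ (-(|b| + 2)) =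
      √(DR K) ^ (|b| + 2) * Real.exp (-((|b| + 2) * v)) := by
    rw [Real.div_rpow (Real.exp_pos v).le hD.le, ← Real.exp_mul, Real.rpow_neg hD.le,
      div_inv_eq_mul, mul_comm]
    congr 2
    ring
  have e0 : ‖gr K χ v‖ ≤ Real.exp (v / 2) * ∑' I : II K, kar K (nm K I * (Real.exp v / √(DR K))) := by
    unfold gr
    rw [norm_mul, Complex.norm_real, Real.norm_of_nonneg (Real.exp_pos _).le]
    refine mul_le_mul_of_nonneg_left ?_ (Real.exp_pos _).le
    refine tsum_of_norm_bounded (kar_summable K hy).hasSum fun I => ?_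
    rw [norm_mul, cv_norm, one_mul, Complex.norm_real, Real.norm_of_nonneg (kar_nonneg K _),
      mul_div_assoc]
  calc ‖gr K χ v‖ ≤ Real.exp (v / 2) * ∑' I : II K, kar K (nm K I * (Real.exp v / √(DR K))) := e0
    _ ≤ Real.exp (v / 2) * (C * (Real.exp v / √(DR K)) ^ (-(|b| + 2))) :=
        mul_le_mul_of_nonneg_left (h _ hy) (Real.exp_pos _).le
    _ = C * √(DR K) ^ (|b| + 2) * (Real.exp (v / 2) * Real.exp (-((|b| + 2) * v))) := by
        rw [e1]
        ring
    _ ≤ C * √(DR K) ^ (|b| + 2) * Real.exp (-(b * v)) := by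
        refine mul_le_mul_of_nonneg_left ?_ (by positivity)
        rw [← Real.exp_add, Real.exp_le_exp]
        nlinarith [abs_nonneg b, le_abs_self b, mul_nonneg (sub_nonneg.2 (le_abs_self b)) hv]

theorem gr_decay (χ : ClassGroup (𝓞 K) →* ℂ) (hχ : χ ≠ 1) (b : ℝ) : ∃ C : ℝ, 0 < C ∧ ∀ v : ℝ,
    ‖gr K χ v‖ ≤ C * Real.exp (-(b * |v|)) := by
  obtain ⟨C, hC, h⟩ := gr_decay_pos K χ b
  refine ⟨C, hC, fun v => ?_⟩
  rcases le_total 0 v with hv | hv
  · rw [abs_of_nonneg hv]
    exact h v hv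
  · rw [abs_of_nonpos hv, gr_eq K χ hχ v, norm_mul, chi_norm, one_mul, RCLike.norm_conj]
    exact h (-v) (by linarith)

theorem LamR_differentiable (χ : ClassGroup (𝓞 K) →* ℂ) (hχ : χ ≠ 1) :
    Differentiable ℂ (LamR K χ) := by
  have h1 := LFaux.laplace_differentiable (gr_continuous K χ) (gr_decay K χ hχ)
  exact h1.comp (f := fun s : ℂ => s - 1 / 2) (by fun_prop)

theorem LR_differentiable (χ : ClassGroup (𝓞 K) →* ℂ) (hχ : χ ≠ 1) :
    Differentiable ℂ (LR K χ) := by
  have hD : (DR K : ℂ) ≠ 0 := by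
    exact_mod_cast (DR_pos K).ne'
  unfold LR
  refine Differentiable.mul (Differentiable.mul (LamR_differentiable K χ hχ) ?_) ?_
  · intro s
    exact DifferentiableAt.const_cpow (by fun_prop) (Or.inl hD)
  · exact Differentiable.pow Complex.differentiable_Gammaℝ_inv _

/-- The functional equation of the completed L-function. -/
theorem LamR_eq_conj (χ : ClassGroup (𝓞 K) →* ℂ) (hχ : χ ≠ 1) (s : ℂ) :
    LamR K χ s = χ (ClassGroup.mk0 (dI K)) *
      (starRingEnd ℂ) (LamR K χ (1 - (starRingEnd ℂ) s)) := by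
  unfold LamR
  rw [← integral_conj, ← MeasureTheory.integral_const_mul,
    ← MeasureTheory.integral_neg_eq_self]
  refine MeasureTheory.integral_congr_ae (Filter.Eventually.of_forall fun v => ?_)
  simp only
  rw [gr_eq K χ hχ (-v), neg_neg, map_mul, ← Complex.exp_conj, mul_assoc]
  congr 3
  rw [map_mul, map_sub, map_sub, Complex.conj_conj, Complex.conj_ofReal]
  have h2 : (starRingEnd ℂ) (1 / 2 : ℂ) = 1 / 2 := by
    rw [map_div₀, map_one]
    congr 1
    exact Complex.conj_ofReal 2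
  rw [h2, map_one]
  push_cast
  ring

theorem term_integrable {s : ℂ} (hs : 0 < s.re) {a : ℝ} (ha : 0 < a) :
    MeasureTheory.Integrable fun v : ℝ =>
      (kar K (a * Real.exp v) : ℂ) * Complex.exp (s * v) := by
  have h1 := (kar_mellin_integrable K hs).comp_add_right (Real.log a)
  have h2 := h1.mul_const (Complex.exp (-(s * Real.log a)))
  refine h2.congr (Filter.Eventually.of_forall fun v => ?_)
  simp only
  rw [Real.exp_add, Real.exp_log ha, mul_comm (Real.exp v) a, mul_assoc, ← Complex.exp_add]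
  congr 2
  push_cast
  ring

theorem LamR_eq (χ : ClassGroup (𝓞 K) →* ℂ) {s : ℂ} (hs : 1 < s.re) :
    LamR K χ s = ∑' I : II K, cv K χ I * (((nm K I / √(DR K) : ℝ) : ℂ) ^ (-s) *
      Complex.Gammaℝ s ^ nn K) := by
  have := LFaux.countable_II K
  have hD : 0 < √(DR K) := Real.sqrt_pos.2 (DR_pos K)
  have hs0 : 0 < s.re := by linarith
  have ha : ∀ I : II K, 0 < nm K I / √(DR K) := fun I => div_pos (nm_pos I) hD
  have hint : ∀ I : II K, MeasureTheory.Integrable fun v : ℝ =>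
      cv K χ I * ((kar K (nm K I / √(DR K) * Real.exp v) : ℂ) * Complex.exp (s * v)) :=
    fun I => (term_integrable K hs0 (ha I)).const_mul _
  have hre : 0 < ((s.re : ℝ) : ℂ).re := by rw [Complex.ofReal_re]; exact hs0
  have hnorm : ∀ I : II K, ∀ v : ℝ,
      ‖cv K χ I * ((kar K (nm K I / √(DR K) * Real.exp v) : ℂ) * Complex.exp (s * v))‖ =
        kar K (nm K I / √(DR K) * Real.exp v) * Real.exp (s.re * v) := by
    intro I v
    rw [norm_mul, norm_mul, cv_norm, one_mul, Complex.norm_real,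
      Real.norm_of_nonneg (kar_nonneg K _), Complex.norm_exp]
    congr 2
    simp
  set Q : ℝ := ∫ v : ℝ, kar K (Real.exp v) * Real.exp (s.re * v) with hQ
  have hQ0 : 0 ≤ Q := MeasureTheory.integral_nonneg fun v =>
    mul_nonneg (kar_nonneg K _) (Real.exp_pos _).le
  have hval : ∀ a : ℝ, 0 < a → ∫ v : ℝ, kar K (a * Real.exp v) * Real.exp (s.re * v) =
      a ^ (-s.re) * Q := by
    intro a ha
    rw [hQ, ← MeasureTheory.integral_add_right_eq_self
      (fun v : ℝ => kar K (Real.exp v) * Real.exp (s.re * v)) (Real.log a),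
      ← MeasureTheory.integral_const_mul]
    refine MeasureTheory.integral_congr_ae (Filter.Eventually.of_forall fun v => ?_)
    simp only
    rw [Real.exp_add, Real.exp_log ha, mul_comm (Real.exp v) a, Real.rpow_def_of_pos ha]
    have : Real.exp (s.re * v) = Real.exp (Real.log a * -s.re) * Real.exp (s.re * (v + Real.log a)) := by
      rw [← Real.exp_add]
      congr 1
      ring
    rw [this]
    ring
  have hsum : Summable fun I : II K => ∫ v : ℝ,
      ‖cv K χ I * ((kar K (nm K I / √(DR K) * Real.exp v) : ℂ) * Complex.exp (s * v))‖ := by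
    have h1 : Summable fun I : II K => nm K I ^ (-s.re) * (√(DR K) ^ s.re * Q) :=
      (summable_nm K s.re hs).mul_right _
    refine h1.congr fun I => ?_
    simp_rw [hnorm I]
    rw [hval _ (ha I)]
    have h4 : (nm K I / √(DR K)) ^ (-s.re) = nm K I ^ (-s.re) * √(DR K) ^ s.re := by
      rw [Real.div_rpow (nm_pos I).le hD.le, Real.rpow_neg hD.le, div_inv_eq_mul]
    rw [h4, mul_assoc]
  have hmain := MeasureTheory.integral_tsum_of_summable_integral_norm hint hsum
  have hLam : LamR K χ s = ∫ v : ℝ, ∑' I : II K,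
      cv K χ I * ((kar K (nm K I / √(DR K) * Real.exp v) : ℂ) * Complex.exp (s * v)) := by
    unfold LamR gr
    refine MeasureTheory.integral_congr_ae (Filter.Eventually.of_forall fun v => ?_)
    simp only
    rw [← tsum_mul_left, ← tsum_mul_right]
    refine tsum_congr fun I => ?_
    have h6 : Complex.exp (s * v) = (Real.exp (v / 2) : ℂ) * Complex.exp ((s - 1 / 2) * v) := by
      rw [Complex.ofReal_exp, ← Complex.exp_add]
      congr 1
      push_cast
      ring
    have h7 : nm K I * Real.exp v / √(DR K) = nm K I / √(DR K) * Real.exp v := by ring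
    rw [h6, h7]
    ring
  rw [hLam, ← hmain]
  refine tsum_congr fun I => ?_
  rw [MeasureTheory.integral_const_mul, kar_mellin' K hs0 (ha I)]

/-- The Dirichlet series is absolutely convergent. -/
theorem series_summable (χ : ClassGroup (𝓞 K) →* ℂ) {s : ℂ} (hs : 1 < s.re) :
    Summable fun I : II K => ‖cv K χ I * (nm K I : ℂ) ^ (-s)‖ := by
  refine (summable_nm K s.re hs).congr fun I => ?_
  rw [norm_mul, cv_norm, one_mul, Complex.norm_cpow_eq_rpow_re_of_pos (nm_pos I), Complex.neg_re]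

theorem LR_eq (χ : ClassGroup (𝓞 K) →* ℂ) {s : ℂ} (hs : 1 < s.re) :
    LR K χ s = ∑' I : II K, cv K χ I * (nm K I : ℂ) ^ (-s) := by
  have hs0 : 0 < s.re := by linarith
  have hD0 : 0 < DR K := DR_pos K
  have hD : 0 < √(DR K) := Real.sqrt_pos.2 hD0
  have hG : Complex.Gammaℝ s ≠ 0 := Complex.Gammaℝ_ne_zero_of_re_pos hs0
  unfold LR
  rw [LamR_eq K χ hs, ← tsum_mul_right, ← tsum_mul_right]
  refine tsum_congr fun I => ?_
  have h1 : ((nm K I / √(DR K) : ℝ) : ℂ) ^ (-s) =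
      (nm K I : ℂ) ^ (-s) / ((√(DR K) : ℝ) : ℂ) ^ (-s) := by
    rw [Complex.ofReal_div, Complex.div_cpow_ofReal_nonneg (nm_pos I).le hD.le]
  have h2 : ((√(DR K) : ℝ) : ℂ) ^ (-s) = (DR K : ℂ) ^ (-s / 2) := by
    have h5 : (DR K : ℂ) = ((√(DR K) : ℝ) : ℂ) ^ 2 := by
      rw [← Complex.ofReal_pow, Real.sq_sqrt hD0.le]
    rw [h5, ← Complex.cpow_nat_mul']
    · congr 1
      push_cast
      ring
    · rw [Complex.arg_ofReal_of_nonneg hD.le]
      simpa using Real.pi_pos
    · rw [Complex.arg_ofReal_of_nonneg hD.le]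
      simpa using Real.pi_pos.le
  have h3 : (DR K : ℂ) ^ (-s / 2) ≠ 0 := by
    rw [Ne, Complex.cpow_eq_zero_iff]
    rintro ⟨h, -⟩
    exact hD0.ne' (by exact_mod_cast h)
  have h7 := pow_ne_zero (nn K) hG
  rw [h1, h2, inv_pow]
  generalize (DR K : ℂ) ^ (-s / 2) = X at *
  generalize (Complex.Gammaℝ s) ^ nn K = Z at *
  field_simp

theorem LR_hasSum (χ : ClassGroup (𝓞 K) →* ℂ) {s : ℂ} (hs : 1 < s.re) :
    HasSum (fun I : II K => cv K χ I * (nm K I : ℂ) ^ (-s)) (LR K χ s) := by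
  rw [LR_eq K χ hs]
  exact (series_summable K χ hs).of_norm.hasSum

/-- The completed L-function from the L-function. -/
theorem LamR_of_LR (χ : ClassGroup (𝓞 K) →* ℂ) {s : ℂ} (hs : 0 < s.re) :
    LamR K χ s = (DR K : ℂ) ^ (s / 2) * Complex.Gammaℝ s ^ nn K * LR K χ s := by
  have hD0 : (DR K : ℂ) ≠ 0 := by exact_mod_cast (DR_pos K).ne'
  have hG : Complex.Gammaℝ s ≠ 0 := Complex.Gammaℝ_ne_zero_of_re_pos hs
  have h7 := pow_ne_zero (nn K) hG
  unfold LR
  have h8 : (DR K : ℂ) ^ (s / 2) * (DR K : ℂ) ^ (-s / 2) = 1 := by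
    rw [← Complex.cpow_add _ _ hD0]
    have : s / 2 + -s / 2 = 0 := by ring
    rw [this, Complex.cpow_zero]
  rw [inv_pow]
  calc LamR K χ s = LamR K χ s * ((DR K : ℂ) ^ (s / 2) * (DR K : ℂ) ^ (-s / 2)) *
        (Complex.Gammaℝ s ^ nn K * (Complex.Gammaℝ s ^ nn K)⁻¹) := by
        rw [h8, mul_inv_cancel₀ h7, mul_one, mul_one]
    _ = _ := by ring

/-- The rotated completed L-function is real on the critical line. -/
theorem LamR_real (χ : ClassGroup (𝓞 K) →* ℂ) (hχ : χ ≠ 1) : ∃ ω : ℂ, ‖ω‖ = 1 ∧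
    ∀ t : ℝ, (ω * LamR K χ (1 / 2 + t * Complex.I)).im = 0 := by
  set W := χ (ClassGroup.mk0 (dI K)) with hWdef
  have hW1 : ‖W‖ = 1 := chi_norm K χ _
  obtain ⟨ω, hω⟩ := IsAlgClosed.exists_pow_nat_eq ((starRingEnd ℂ) W) (n := 2) (by norm_num)
  have hω1 : ‖ω‖ = 1 := by
    have h1 : ‖ω‖ ^ 2 = 1 := by rw [← norm_pow, hω, RCLike.norm_conj, hW1]
    have h0 := norm_nonneg ω
    nlinarith
  refine ⟨ω, hω1, fun t => ?_⟩
  have hωω : (starRingEnd ℂ) ω * ω = 1 := by
    rw [mul_comm, Complex.mul_conj, Complex.normSq_eq_norm_sq, hω1]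
    norm_num
  have hWW : (starRingEnd ℂ) W * W = 1 := by
    rw [mul_comm, Complex.mul_conj, Complex.normSq_eq_norm_sq, hW1]
    norm_num
  set z : ℂ := 1 / 2 + t * Complex.I with hz
  have hzz : 1 - (starRingEnd ℂ) z = z := by
    rw [hz, map_add, map_mul, Complex.conj_I, Complex.conj_ofReal]
    have h2 : (starRingEnd ℂ) (1 / 2 : ℂ) = 1 / 2 := by
      rw [map_div₀, map_one]
      congr 1
      exact Complex.conj_ofReal 2
    rw [h2]
    ring
  have hfe := LamR_eq_conj K χ hχ z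
  rw [hzz, ← hWdef] at hfe
  have hconj : (starRingEnd ℂ) (LamR K χ z) = (starRingEnd ℂ) W * LamR K χ z := by
    calc (starRingEnd ℂ) (LamR K χ z) = ((starRingEnd ℂ) W * W) * (starRingEnd ℂ) (LamR K χ z) := by
          rw [hWW, one_mul]
      _ = (starRingEnd ℂ) W * (W * (starRingEnd ℂ) (LamR K χ z)) := by ring
      _ = _ := by rw [← hfe]
  rw [← Complex.conj_eq_iff_im, map_mul, hconj, ← hω]
  calc (starRingEnd ℂ) ω * (ω ^ 2 * LamR K χ z)
      = ((starRingEnd ℂ) ω * ω) * (ω * LamR K χ z) := by ring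
    _ = ω * LamR K χ z := by rw [hωω, one_mul]

end Pool.Agent.TRF
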