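import Pool.Agent.TRF.LFun
import Pool.Agent.CLine.GammaInv

/-!
# Polynomial growth of the L-function in vertical strips
-/

open scoped NumberField nonZeroDivisors
open NumberField NumberField.InfinitePlace NumberField.mixedEmbedding NumberField.Units
  NumberField.Units.dirichletUnitTheorem Pool.ZD Pool.Agent.CMZ Complex

namespace Pool.Agent.TRF

set_option linter.unusedSectionVars false

/-! ### Gamma factors -/

theorem norm_Gamma_three_half_sq (τ : ℝ) :
    ‖Complex.Gamma (3 / 2 + τ * I)‖ ^ 2 = (1 / 4 + τ ^ 2) * (Real.pi / Real.cosh (Real.pi * τ)) := by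
  have h0 : (1 / 2 + τ * I : ℂ) ≠ 0 := by
    intro h
    have := congrArg Complex.re h
    simp at this
  have h1 := Complex.Gamma_add_one (1 / 2 + τ * I) h0
  have h2 : (1 / 2 + τ * I : ℂ) + 1 = 3 / 2 + τ * I := by ring
  rw [h2] at h1
  rw [h1, norm_mul, mul_pow, CLine.Gamma_half_norm_sq]
  congr 1
  rw [← Complex.normSq_eq_norm_sq, Complex.normSq_apply]
  simp
  ring

theorem norm_cos_le (s : ℂ) : ‖Complex.cos s‖ ≤ Real.cosh s.im := by
  have h1 : Complex.cos s = (Complex.exp (s * I) + Complex.exp (-s * I)) / 2 := rfl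
  rw [h1, norm_div, Real.cosh_eq]
  have h2 : ‖Complex.exp (s * I)‖ = Real.exp (-s.im) := by
    rw [Complex.norm_exp]; simp
  have h3 : ‖Complex.exp (-s * I)‖ = Real.exp s.im := by
    rw [Complex.norm_exp]; simp
  have h4 := norm_add_le (Complex.exp (s * I)) (Complex.exp (-s * I))
  rw [h2, h3] at h4
  have h5 : ‖(2 : ℂ)‖ = 2 := by simp
  rw [h5]
  linarith

theorem cosh_sq_le (x : ℝ) : Real.cosh (x / 2) ^ 2 ≤ Real.cosh x := by
  have h1 : Real.cosh x = 2 * Real.cosh (x / 2) ^ 2 - 1 := by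
    have h2 := Real.cosh_two_mul (x / 2)
    have h3 := Real.cosh_sq (x / 2)
    rw [mul_div_cancel₀ _ (two_ne_zero)] at h2
    rw [h2]
    linarith
  have h4 : 1 ≤ Real.cosh (x / 2) := Real.one_le_cosh _
  nlinarith

/-- The ratio of the Gamma factors on the line `Re s = -1/2`. -/
theorem ratio_bound : ∃ C : ℝ, 0 < C ∧ ∀ τ : ℝ,
    ‖Gammaℂ (3 / 2 + τ * I)‖ * ‖Complex.cos (Real.pi * (3 / 2 + τ * I) / 2)‖ ≤ C * (1 + |τ|) := by
  have hpi := Real.pi_pos
  set c : ℝ := ‖(2 : ℂ) * (2 * Real.pi : ℂ) ^ (-(3 / 2 : ℂ))‖ with hc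
  refine ⟨(c + 1) * Real.pi, by positivity, fun τ => ?_⟩
  have h1 : ‖Gammaℂ (3 / 2 + τ * I)‖ = c * ‖Complex.Gamma (3 / 2 + τ * I)‖ := by
    rw [Gammaℂ_def, norm_mul, hc]
    congr 1
    have h2 : (2 * Real.pi : ℂ) = ((2 * Real.pi : ℝ) : ℂ) := by push_cast; ring
    rw [norm_mul, norm_mul, h2, Complex.norm_cpow_eq_rpow_re_of_pos (by positivity),
      Complex.norm_cpow_eq_rpow_re_of_pos (by positivity)]
    congr 2
    simp
  have h3 : ‖Complex.cos (Real.pi * (3 / 2 + τ * I) / 2)‖ ≤ Real.cosh (Real.pi * τ / 2) := by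
    refine (norm_cos_le _).trans (le_of_eq ?_)
    congr 1
    have : (Real.pi : ℂ) * (3 / 2 + τ * I) / 2 = ((3 * Real.pi / 4 : ℝ) : ℂ) +
      ((Real.pi * τ / 2 : ℝ) : ℂ) * I := by push_cast; ring
    rw [this]
    simp
  have h4 : ‖Complex.Gamma (3 / 2 + τ * I)‖ * Real.cosh (Real.pi * τ / 2) ≤
      Real.pi * (1 + |τ|) := by
    have h5 := norm_Gamma_three_half_sq τ
    have h6 := cosh_sq_le (Real.pi * τ)
    have hch : 0 < Real.cosh (Real.pi * τ) := Real.cosh_pos _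
    have hch2 : 0 < Real.cosh (Real.pi * τ / 2) := Real.cosh_pos _
    have h7 : (‖Complex.Gamma (3 / 2 + τ * I)‖ * Real.cosh (Real.pi * τ / 2)) ^ 2 ≤
        (Real.pi * (1 + |τ|)) ^ 2 := by
      rw [mul_pow, h5]
      have e1 : (1 / 4 + τ ^ 2) * (Real.pi / Real.cosh (Real.pi * τ)) *
          Real.cosh (Real.pi * τ / 2) ^ 2 ≤ (1 / 4 + τ ^ 2) * Real.pi := by
        have : Real.pi / Real.cosh (Real.pi * τ) * Real.cosh (Real.pi * τ / 2) ^ 2 ≤ Real.pi := by
          rw [div_mul_eq_mul_div, div_le_iff₀ hch]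
          exact mul_le_mul_of_nonneg_left h6 hpi.le
        calc (1 / 4 + τ ^ 2) * (Real.pi / Real.cosh (Real.pi * τ)) *
          Real.cosh (Real.pi * τ / 2) ^ 2 = (1 / 4 + τ ^ 2) * (Real.pi / Real.cosh (Real.pi * τ) *
          Real.cosh (Real.pi * τ / 2) ^ 2) := by ring
          _ ≤ _ := mul_le_mul_of_nonneg_left this (by positivity)
      refine e1.trans ?_
      have e2 : τ ^ 2 = |τ| ^ 2 := (sq_abs τ).symm
      have e3 : 0 ≤ |τ| := abs_nonneg τ
      have e4 : 3 < Real.pi := Real.pi_gt_three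
      rw [e2, mul_pow]
      have e5 : 1 / 4 + |τ| ^ 2 ≤ (1 + |τ|) ^ 2 := by nlinarith
      have e6 : Real.pi ≤ Real.pi ^ 2 := by nlinarith
      calc (1 / 4 + |τ| ^ 2) * Real.pi ≤ (1 + |τ|) ^ 2 * Real.pi ^ 2 :=
            mul_le_mul e5 e6 hpi.le (by positivity)
        _ = Real.pi ^ 2 * (1 + |τ|) ^ 2 := by ring
    exact (pow_le_pow_iff_left₀ (by positivity) (by positivity) two_ne_zero).1 h7
  rw [h1]
  have hc0 : 0 ≤ c := norm_nonneg _
  calc c * ‖Complex.Gamma (3 / 2 + τ * I)‖ * ‖Complex.cos (Real.pi * (3 / 2 + τ * I) / 2)‖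
      ≤ c * ‖Complex.Gamma (3 / 2 + τ * I)‖ * Real.cosh (Real.pi * τ / 2) := by gcongr
    _ = c * (‖Complex.Gamma (3 / 2 + τ * I)‖ * Real.cosh (Real.pi * τ / 2)) := by ring
    _ ≤ c * (Real.pi * (1 + |τ|)) := by gcongr
    _ ≤ (c + 1) * Real.pi * (1 + |τ|) := by
      have : 0 ≤ Real.pi * (1 + |τ|) := by positivity
      nlinarith

theorem Gammaℝ_conj (s : ℂ) : Gammaℝ ((starRingEnd ℂ) s) = (starRingEnd ℂ) (Gammaℝ s) := by
  rw [Gammaℝ_def, Gammaℝ_def, map_mul, ← Complex.Gamma_conj, map_div₀]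
  have h2 : (starRingEnd ℂ) (2 : ℂ) = 2 := Complex.conj_ofReal 2
  rw [h2]
  congr 1
  have h3 : ((Real.pi : ℝ) : ℂ) ≠ 0 := by exact_mod_cast Real.pi_ne_zero
  rw [Complex.cpow_def_of_ne_zero h3, Complex.cpow_def_of_ne_zero h3, ← Complex.exp_conj,
    map_mul, ← Complex.ofReal_log Real.pi_pos.le, Complex.conj_ofReal, map_div₀, map_neg, h2]

/-- The inverse of the Gamma factor in a strip. -/
theorem inv_Gammaℝ_bound : ∃ C : ℝ, 0 < C ∧ ∀ s : ℂ, -(1 / 2) ≤ s.re → s.re ≤ 3 / 2 →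
    ‖(Gammaℝ s)⁻¹‖ ≤ C * Real.exp (3 * |s.im|) := by
  obtain ⟨C, hC⟩ := CLine.inv_Gamma_bound
  have hC0 : 0 ≤ C := by
    have h := hC 1 (by norm_num) (by norm_num)
    rw [Complex.Gamma_one] at h
    by_contra hneg
    push Not at hneg
    have h2 : C * Real.exp (Real.pi * |(1 : ℂ).im|) < 0 :=
      mul_neg_of_neg_of_pos hneg (Real.exp_pos _)
    have h3 : (0 : ℝ) ≤ ‖(1 : ℂ)⁻¹‖ := norm_nonneg _
    linarith
  refine ⟨4 * (C + 1), by positivity, fun s h1 h2 => ?_⟩
  have hpi := Real.pi_pos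
  set z : ℂ := s / 2 with hz
  have hzre : z.re = s.re / 2 := by simp [hz]
  have hzim : z.im = s.im / 2 := by simp [hz]
  have e1 : ‖(Complex.Gamma z)⁻¹‖ ≤ (1 + |s.im|) * (C * Real.exp (Real.pi * |s.im| / 2)) := by
    have h3 := Complex.one_div_Gamma_eq_self_mul_one_div_Gamma_add_one z
    rw [h3, norm_mul]
    have h4 := hC (z + 1) (by simp [hzre]; linarith) (by simp [hzre]; linarith)
    have h5 : ‖z‖ ≤ 1 + |s.im| := by
      have h6 := Complex.norm_le_abs_re_add_abs_im z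
      have h7 : |z.re| ≤ 1 := by rw [hzre, abs_le]; constructor <;> linarith
      have h8 : |z.im| ≤ |s.im| := by
        rw [hzim, abs_div]
        have : |(2 : ℝ)| = 2 := by norm_num
        rw [this]
        have := abs_nonneg s.im
        linarith
      linarith
    have h9 : Real.pi * |(z + 1).im| = Real.pi * |s.im| / 2 := by
      simp [hzim, abs_div]
      ring
    rw [h9] at h4
    exact mul_le_mul h5 h4 (norm_nonneg _) (by positivity)
  have e2 : ‖((Real.pi : ℂ) ^ (-s / 2))⁻¹‖ ≤ 4 := by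
    rw [norm_inv, Complex.norm_cpow_eq_rpow_re_of_pos hpi, ← Real.rpow_neg hpi.le]
    have h3 : -(-s / 2).re ≤ 1 := by
      simp
      linarith
    calc Real.pi ^ (-(-s / 2).re) ≤ Real.pi ^ (1 : ℝ) :=
          Real.rpow_le_rpow_of_exponent_le (by linarith [Real.pi_gt_three]) h3
      _ ≤ 4 := by rw [Real.rpow_one]; exact Real.pi_le_four
  rw [Gammaℝ_def, mul_inv, norm_mul]
  have e3 : (1 + |s.im|) * Real.exp (Real.pi * |s.im| / 2) ≤ Real.exp (3 * |s.im|) := by
    have h3 : 1 + |s.im| ≤ Real.exp |s.im| := by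
      have := Real.add_one_le_exp |s.im|
      linarith
    calc (1 + |s.im|) * Real.exp (Real.pi * |s.im| / 2)
        ≤ Real.exp |s.im| * Real.exp (Real.pi * |s.im| / 2) := by gcongr
      _ = Real.exp (|s.im| + Real.pi * |s.im| / 2) := by rw [Real.exp_add]
      _ ≤ _ := by
        apply Real.exp_le_exp.2
        have := Real.pi_le_four
        nlinarith [abs_nonneg s.im]
  calc ‖((Real.pi : ℂ) ^ (-s / 2))⁻¹‖ * ‖(Complex.Gamma (s / 2))⁻¹‖
      ≤ 4 * ((1 + |s.im|) * (C * Real.exp (Real.pi * |s.im| / 2))) := by gcongr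
    _ = 4 * C * ((1 + |s.im|) * Real.exp (Real.pi * |s.im| / 2)) := by ring
    _ ≤ 4 * C * Real.exp (3 * |s.im|) := by gcongr
    _ ≤ 4 * (C + 1) * Real.exp (3 * |s.im|) := by
      have := Real.exp_pos (3 * |s.im|)
      nlinarith

variable (K : Type) [Field K] [NumberField K] [IsTotallyReal K]

/-- `L` is bounded to the right of every line `Re s = 1 + ε`. -/
theorem LR_bounded (χ : ClassGroup (𝓞 K) →* ℂ) {a : ℝ} (ha : 1 < a) : ∃ B : ℝ, 0 < B ∧
    ∀ s : ℂ, a ≤ s.re → ‖LR K χ s‖ ≤ B := by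
  have hs := summable_nm K a ha
  have h0 : 0 ≤ ∑' I : II K, nm K I ^ (-a) :=
    tsum_nonneg fun I => (Real.rpow_pos_of_pos (nm_pos I) _).le
  refine ⟨∑' I : II K, nm K I ^ (-a) + 1, by positivity, fun s hsr => ?_⟩
  rw [LR_eq K χ (by linarith)]
  have h1 : ‖∑' I : II K, cv K χ I * (nm K I : ℂ) ^ (-s)‖ ≤ ∑' I : II K, nm K I ^ (-a) := by
    refine tsum_of_norm_bounded hs.hasSum fun I => ?_
    rw [norm_mul, cv_norm, one_mul, Complex.norm_cpow_eq_rpow_re_of_pos (nm_pos I), Complex.neg_re]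
    exact Real.rpow_le_rpow_of_exponent_le (nm_one_le I) (by linarith)
  linarith

/-- `Λ` is bounded in the strip. -/
theorem LamR_bounded (χ : ClassGroup (𝓞 K) →* ℂ) (hχ : χ ≠ 1) : ∃ B : ℝ, 0 < B ∧
    ∀ s : ℂ, -(1 / 2) ≤ s.re → s.re ≤ 3 / 2 → ‖LamR K χ s‖ ≤ B := by
  obtain ⟨C, hC, h⟩ := gr_decay K χ hχ 2
  have hint : MeasureTheory.Integrable fun v : ℝ => Real.exp (-|v|) := by
    by_contra hni
    have h1 := MeasureTheory.integral_undef hni
    have h2 := integral_comp_abs (f := fun x : ℝ => Real.exp (-x))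
    rw [h1, integral_exp_neg_Ioi_zero] at h2
    norm_num at h2
  have h0 : 0 ≤ ∫ v : ℝ, Real.exp (-|v|) :=
    MeasureTheory.integral_nonneg fun v => (Real.exp_pos _).le
  refine ⟨C * (∫ v : ℝ, Real.exp (-|v|)) + 1, by positivity, fun s h1 h2 => ?_⟩
  have h3 : ‖LamR K χ s‖ ≤ ∫ v : ℝ, C * Real.exp (-|v|) := by
    unfold LamR
    refine MeasureTheory.norm_integral_le_of_norm_le (hint.const_mul C)
      (Filter.Eventually.of_forall fun v => ?_)
    rw [norm_mul, Complex.norm_exp]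
    have e1 : ((s - 1 / 2) * v).re = (s.re - 1 / 2) * v := by
      simp
    rw [e1]
    have e2 : (s.re - 1 / 2) * v ≤ |v| := by
      have h4 : |s.re - 1 / 2| ≤ 1 := by rw [abs_le]; constructor <;> linarith
      calc (s.re - 1 / 2) * v ≤ |(s.re - 1 / 2) * v| := le_abs_self _
        _ = |s.re - 1 / 2| * |v| := abs_mul _ _
        _ ≤ 1 * |v| := by gcongr
        _ = |v| := one_mul _
    calc ‖gr K χ v‖ * Real.exp ((s.re - 1 / 2) * v)
        ≤ C * Real.exp (-(2 * |v|)) * Real.exp |v| := by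
          gcongr
          exact h v
      _ = C * Real.exp (-|v|) := by
          rw [mul_assoc, ← Real.exp_add]
          congr 2
          ring
  rw [MeasureTheory.integral_const_mul] at h3
  linarith

/-- Polynomial growth on the line `Re s = -1/2`. -/
theorem LR_left (χ : ClassGroup (𝓞 K) →* ℂ) (hχ : χ ≠ 1) : ∃ B : ℝ, 0 < B ∧
    ∀ s : ℂ, s.re = -(1 / 2) → ‖LR K χ s‖ ≤ B * (1 + |s.im|) ^ nn K := by
  obtain ⟨B₁, hB₁, h1⟩ := LR_bounded K χ (a := 3 / 2) (by norm_num)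
  obtain ⟨C, hC, h2⟩ := ratio_bound
  have hD := DR_pos K
  refine ⟨B₁ * (DR K * C ^ nn K), by positivity, fun s hs => ?_⟩
  set u : ℂ := 1 - (starRingEnd ℂ) s with hu
  have hure : u.re = 3 / 2 := by simp [hu, hs]; norm_num
  have huim : u.im = s.im := by simp [hu]
  have hs' : s = 1 - (starRingEnd ℂ) u := by simp [hu]
  have hLam : LamR K χ s = χ (ClassGroup.mk0 (dI K)) * (starRingEnd ℂ) (LamR K χ u) :=
    LamR_eq_conj K χ hχ s
  have hLam2 := LamR_of_LR K χ (s := u) (by rw [hure]; norm_num)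
  have hinv : (Gammaℝ s)⁻¹ = Gammaℂ ((starRingEnd ℂ) u) *
      Complex.cos (Real.pi * ((starRingEnd ℂ) u) / 2) * (Gammaℝ ((starRingEnd ℂ) u))⁻¹ := by
    rw [hs']
    refine inv_Gammaℝ_one_sub fun n h => ?_
    have := congrArg Complex.re h
    rw [Complex.conj_re, hure] at this
    simp at this
    have hn : (0 : ℝ) ≤ n := Nat.cast_nonneg n
    linarith
  have hcu : (starRingEnd ℂ) u = 3 / 2 + ((-s.im : ℝ) : ℂ) * I := by
    apply Complex.ext
    · simp [hure]
    · simp [huim]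
  have hG : Gammaℝ u ≠ 0 := Gammaℝ_ne_zero_of_re_pos (by rw [hure]; norm_num)
  have hGn : ‖Gammaℝ ((starRingEnd ℂ) u)‖ = ‖Gammaℝ u‖ := by
    rw [Gammaℝ_conj, RCLike.norm_conj]
  have hG0 : 0 < ‖Gammaℝ u‖ := norm_pos_iff.2 hG
  unfold LR
  rw [norm_mul, norm_mul, norm_pow, hLam, norm_mul, chi_norm, one_mul, RCLike.norm_conj, hLam2,
    norm_mul, norm_mul, norm_pow, hinv, norm_mul, norm_mul, norm_inv, hGn,
    Complex.norm_cpow_eq_rpow_re_of_pos hD, Complex.norm_cpow_eq_rpow_re_of_pos hD]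
  have e1 : (u / 2).re = 3 / 4 := by simp [hure]; norm_num
  have e2 : (-s / 2).re = 1 / 4 := by simp [hs]; norm_num
  rw [e1, e2]
  have e3 : DR K ^ (3 / 4 : ℝ) * DR K ^ (1 / 4 : ℝ) = DR K := by
    rw [← Real.rpow_add hD]
    norm_num
  have e4 := h2 (-s.im)
  rw [← hcu, abs_neg] at e4
  have e5 := h1 u (by rw [hure])
  calc DR K ^ (3 / 4 : ℝ) * ‖Gammaℝ u‖ ^ nn K * ‖LR K χ u‖ * DR K ^ (1 / 4 : ℝ) *
        (‖Gammaℂ ((starRingEnd ℂ) u)‖ * ‖Complex.cos (Real.pi * (starRingEnd ℂ) u / 2)‖ *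
          ‖Gammaℝ u‖⁻¹) ^ nn K
      = ‖LR K χ u‖ * ((DR K ^ (3 / 4 : ℝ) * DR K ^ (1 / 4 : ℝ)) *
        (‖Gammaℂ ((starRingEnd ℂ) u)‖ * ‖Complex.cos (Real.pi * (starRingEnd ℂ) u / 2)‖) ^ nn K) *
          (‖Gammaℝ u‖ * ‖Gammaℝ u‖⁻¹) ^ nn K := by
        simp only [mul_pow]
        ring
    _ = ‖LR K χ u‖ * (DR K *
        (‖Gammaℂ ((starRingEnd ℂ) u)‖ * ‖Complex.cos (Real.pi * (starRingEnd ℂ) u / 2)‖) ^ nn K) := by
        rw [e3, mul_inv_cancel₀ hG0.ne', one_pow, mul_one]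
    _ ≤ B₁ * (DR K * (C * (1 + |s.im|)) ^ nn K) := by gcongr
    _ = B₁ * (DR K * C ^ nn K) * (1 + |s.im|) ^ nn K := by rw [mul_pow]; ring

/-- Polynomial growth in the strip `-1/2 ≤ Re s ≤ 3/2`. -/
theorem LR_strip (χ : ClassGroup (𝓞 K) →* ℂ) (hχ : χ ≠ 1) : ∃ B : ℝ, 0 < B ∧
    ∀ s : ℂ, -(1 / 2) ≤ s.re → s.re ≤ 3 / 2 → ‖LR K χ s‖ ≤ B * ‖s + 2‖ ^ nn K := by
  obtain ⟨B₁, hB₁, h1⟩ := LR_bounded K χ (a := 3 / 2) (by norm_num)
  obtain ⟨B₂, hB₂, h2⟩ := LR_left K χ hχ
  obtain ⟨B₃, hB₃, h3⟩ := LamR_bounded K χ hχ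
  obtain ⟨C, hC, h4⟩ := inv_Gammaℝ_bound
  have hD := DR_pos K
  have hne : ∀ s : ℂ, -(1 / 2) ≤ s.re → 1 ≤ ‖s + 2‖ := by
    intro s hs
    have h5 := Complex.abs_re_le_norm (s + 2)
    have h6 : (s + 2).re = s.re + 2 := by simp
    rw [h6] at h5
    have h7 := le_abs_self (s.re + 2)
    linarith
  set B : ℝ := B₁ + B₂ * 2 ^ nn K with hBdef
  have hB : 0 < B := by positivity
  refine ⟨B, hB, fun s hs1 hs2 => ?_⟩
  set f : ℂ → ℂ := fun s => LR K χ s / (s + 2) ^ nn K with hf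
  have hbd : ‖f s‖ ≤ B := by
    refine PhragmenLindelof.vertical_strip (a := -(1 / 2)) (b := 3 / 2) (f := f) (C := B) ?_ ?_ ?_ ?_
      hs1 hs2
    · -- differentiable
      have hd : DifferentiableOn ℂ f {s : ℂ | -1 < s.re} := by
        intro z hz
        have hz2 : z + 2 ≠ 0 := by
          intro h
          have := congrArg Complex.re h
          simp at this
          have hz' : -1 < z.re := hz
          linarith
        have h5 : DifferentiableAt ℂ f z :=
          (LR_differentiable K χ hχ z).div (by fun_prop) (pow_ne_zero _ hz2)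
        exact h5.differentiableWithinAt
      refine ⟨hd.mono fun z hz => ?_, ?_⟩
      · have : z.re ∈ Set.Ioo (-(1 / 2) : ℝ) (3 / 2) := hz
        have := this.1
        show -1 < z.re
        linarith
      · have h6 : ContinuousOn f {s : ℂ | -1 < s.re} := hd.continuousOn
        refine h6.mono ?_
        intro z hz
        rw [Complex.closure_preimage_re, closure_Ioo (by norm_num)] at hz
        have h7 : z.re ∈ Set.Icc (-(1 / 2) : ℝ) (3 / 2) := hz
        have := h7.1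
        show -1 < z.re
        linarith
    · refine ⟨1, ?_, ?_⟩
      · have := Real.pi_gt_three
        have h5 : (3 / 2 : ℝ) - -(1 / 2) = 2 := by norm_num
        rw [h5]
        linarith
      · refine ⟨3 * nn K, ?_⟩
        refine Asymptotics.IsBigO.of_bound (B₃ * DR K ^ (1 / 4 : ℝ) * C ^ nn K) ?_
        refine Filter.Eventually.filter_mono inf_le_right ?_
        rw [Filter.eventually_principal]
        intro z hz
        have hz1 : z.re ∈ Set.Ioo (-(1 / 2) : ℝ) (3 / 2) := hz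
        have hz2 := hz1.1.le
        have hz3 := hz1.2.le
        have h6 := hne z hz2
        have h7 : ‖f z‖ ≤ ‖LR K χ z‖ := by
          rw [hf]
          simp only
          rw [norm_div, norm_pow]
          exact div_le_self (norm_nonneg _) (one_le_pow₀ h6)
        have hD1 : 1 ≤ DR K := by
          unfold DR
          rw [← Int.cast_abs]
          have h8 : 1 ≤ |discr K| := Int.one_le_abs (discr_ne_zero K)
          exact_mod_cast h8
        have h8 : ‖LR K χ z‖ ≤ B₃ * DR K ^ (1 / 4 : ℝ) * (C * Real.exp (3 * |z.im|)) ^ nn K := by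
          unfold LR
          rw [norm_mul, norm_mul, norm_pow]
          have e1 := h3 z hz2 hz3
          have e2 := h4 z hz2 hz3
          have e3 : ‖(DR K : ℂ) ^ (-z / 2)‖ ≤ DR K ^ (1 / 4 : ℝ) := by
            rw [Complex.norm_cpow_eq_rpow_re_of_pos hD]
            refine Real.rpow_le_rpow_of_exponent_le hD1 ?_
            simp
            linarith
          gcongr
        rw [Real.norm_of_nonneg (Real.exp_pos _).le]
        refine h7.trans (h8.trans ?_)
        have h9 : |z.im| ≤ Real.exp (1 * |z.im|) := by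
          rw [one_mul]
          have := Real.add_one_le_exp |z.im|
          linarith
        have h10 : (nn K : ℝ) * (3 * |z.im|) ≤ 3 * nn K * Real.exp (1 * |z.im|) := by
          calc (nn K : ℝ) * (3 * |z.im|) = 3 * nn K * |z.im| := by ring
            _ ≤ 3 * nn K * Real.exp (1 * |z.im|) := by gcongr
        rw [mul_pow, ← Real.exp_nat_mul, ← mul_assoc (B₃ * DR K ^ (1 / 4 : ℝ))]
        exact mul_le_mul_of_nonneg_left (Real.exp_le_exp.2 h10) (by positivity)
    · intro z hz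
      have h5 := h2 z hz
      have h6 := hne z (by rw [hz])
      rw [hf]
      simp only
      rw [norm_div, norm_pow, div_le_iff₀ (by positivity)]
      have h7 : 1 + |z.im| ≤ 2 * ‖z + 2‖ := by
        have h8 := Complex.abs_im_le_norm (z + 2)
        have h9 : (z + 2).im = z.im := by simp
        rw [h9] at h8
        linarith
      calc ‖LR K χ z‖ ≤ B₂ * (1 + |z.im|) ^ nn K := h5
        _ ≤ B₂ * (2 * ‖z + 2‖) ^ nn K := by gcongr
        _ = B₂ * 2 ^ nn K * ‖z + 2‖ ^ nn K := by rw [mul_pow]; ring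
        _ ≤ B * ‖z + 2‖ ^ nn K := by
          gcongr
          rw [hBdef]
          linarith
    · intro z hz
      have h5 := h1 z (by rw [hz])
      have h6 := hne z (by rw [hz]; norm_num)
      rw [hf]
      simp only
      rw [norm_div, norm_pow, div_le_iff₀ (by positivity)]
      have h7 : 1 ≤ ‖z + 2‖ ^ nn K := one_le_pow₀ h6
      have h8 : 0 < B₂ * 2 ^ nn K := by positivity
      calc ‖LR K χ z‖ ≤ B₁ := h5
        _ ≤ B := by rw [hBdef]; linarith
        _ ≤ B * ‖z + 2‖ ^ nn K := le_mul_of_one_le_right hB.le h7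
  have h6 := hne s hs1
  rw [hf] at hbd
  simp only at hbd
  rw [norm_div, norm_pow, div_le_iff₀ (by positivity)] at hbd
  exact hbd

end Pool.Agent.TRF
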