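import Pool.Agent.TRF.Dual

/-!
# Unfolding for a totally real field
-/

open scoped NumberField nonZeroDivisors
open NumberField NumberField.InfinitePlace NumberField.mixedEmbedding NumberField.Units
  NumberField.Units.dirichletUnitTheorem Pool.ZD Pool.Agent.CMZ Pool.Agent.CMZ.UnfAux
  MeasureTheory

namespace Pool.Agent.TRF

set_option linter.unusedSectionVars false

variable (K : Type) [Field K] [NumberField K]

/-! ### The general form -/

namespace Gen

open scoped ENNReal

theorem exists_cls (J : II K) (A : ClassGroup (𝓞 K)) (hJ : ClassGroup.mk0 J = A⁻¹)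
    (x : NZ K J) : ∃ I : Cls K A, spn K (x : 𝓞 K) = (I : II K) * J := by
  have h1 : (J : Ideal (𝓞 K)) ∣ (spn K (x : 𝓞 K) : Ideal (𝓞 K)) := by
    rw [coe_spn x.2.2, Ideal.dvd_span_singleton]
    exact x.2.1
  obtain ⟨I, hI⟩ := nonZeroDivisors_dvd_iff_dvd_coe.mpr h1
  have h2 : ClassGroup.mk0 (spn K (x : 𝓞 K)) = 1 := by
    rw [ClassGroup.mk0_eq_one_iff, coe_spn x.2.2]
    exact ⟨_, rfl⟩
  refine ⟨⟨I, ?_⟩, ?_⟩
  · rw [hI, map_mul, hJ, inv_mul_eq_one] at h2
    exact h2.symm
  · exact hI.trans (mul_comm _ _)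

/-- The ideal attached to an element. -/
noncomputable def cl (J : II K) (A : ClassGroup (𝓞 K)) (hJ : ClassGroup.mk0 J = A⁻¹)
    (x : NZ K J) : Cls K A := (exists_cls K J A hJ x).choose

theorem cl_spec (J : II K) (A : ClassGroup (𝓞 K)) (hJ : ClassGroup.mk0 J = A⁻¹)
    (x : NZ K J) : spn K (x : 𝓞 K) = (cl K J A hJ x : II K) * J :=
  (exists_cls K J A hJ x).choose_spec

theorem cl_eq_iff (J : II K) (A : ClassGroup (𝓞 K)) (hJ : ClassGroup.mk0 J = A⁻¹)
    (x : NZ K J) (I : Cls K A) : cl K J A hJ x = I ↔ spn K (x : 𝓞 K) = (I : II K) * J := by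
  constructor
  · rintro rfl
    exact cl_spec K J A hJ x
  · intro h
    apply Subtype.ext
    apply ii_cancel (C := J)
    rw [mul_comm, ← cl_spec K J A hJ x, h, mul_comm]

theorem norm_me (x : 𝓞 K) (hx : x ≠ 0) :
    mixedEmbedding.norm (mixedEmbedding K (x : K)) = nm K (spn K x) := by
  rw [nm_spn hx, norm_eq_norm, ← Algebra.coe_norm_int]
  push_cast
  rfl

theorem norm_me_ne (x : 𝓞 K) (hx : x ≠ 0) :
    mixedEmbedding.norm (mixedEmbedding K (x : K)) ≠ 0 := by
  rw [norm_me K x hx]
  exact nm_ne _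

theorem logMap_congr {x y : mixedSpace K} (h : ∀ w, normAtPlace w x = normAtPlace w y) :
    logMap x = logMap y := by
  have hn : mixedEmbedding.norm x = mixedEmbedding.norm y := by
    rw [mixedEmbedding.norm_apply, mixedEmbedding.norm_apply]
    simp only [h]
  funext w
  rw [logMap_apply, logMap_apply, h, hn]

open scoped Classical in
/-- The unfolding identity for nonnegative functions. -/
theorem unf_lint (J : II K) (A : ClassGroup (𝓞 K)) (hJ : ClassGroup.mk0 J = A⁻¹)
    (G : Cls K A → logSpace K → ℝ≥0∞) (hG : ∀ I, Measurable (G I)) :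
    ∑' x : NZ K J, ∫⁻ t in FD K, G (cl K J A hJ x)
        (t + logMap (mixedEmbedding K ((x : 𝓞 K) : K))) =
      torsionOrder K * ∑' I : Cls K A, ∫⁻ t : logSpace K, G I t := by
  have h1 : ∀ I₀ : Cls K A, ∑' x : NZ K J, (if spn K (x : 𝓞 K) = (I₀ : II K) * J then 1 else 0) *
      ∫⁻ t in FD K, G I₀ (t + logMap (mixedEmbedding K ((x : 𝓞 K) : K))) =
      torsionOrder K * ∫⁻ t : logSpace K, G I₀ t := by
    intro I₀
    have h2 := unfoldW K J A hJ (fun I => if I = (I₀ : II K) * J then 1 else 0)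
      (fun z => if mixedEmbedding.norm z ≠ 0 then G I₀ (logMap z) else 0)
      (fun x y hxy => by
        have hn : mixedEmbedding.norm x = mixedEmbedding.norm y := by
          rw [mixedEmbedding.norm_apply, mixedEmbedding.norm_apply]
          simp only [hxy]
        simp only [hn, logMap_congr K hxy])
      (fun _ => ∫⁻ t : logSpace K, G I₀ t)
      (fun x hx => by
        have h3 : ∀ t : logSpace K, (if mixedEmbedding.norm (sg K t * x) ≠ 0 then
            G I₀ (logMap (sg K t * x)) else 0) = G I₀ (t + logMap x) := by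
          intro t
          rw [norm_sg_mul, if_pos hx, logMap_mul (by rw [norm_sg]; exact one_ne_zero) hx, logMap_sg]
        simp only [h3]
        exact lintegral_add_right_eq_self (fun t : logSpace K => G I₀ t) (logMap x))
    have h4 : ∑' I : Cls K A, (if (I : II K) * J = (I₀ : II K) * J then (1 : ℝ≥0∞) else 0) *
        ∫⁻ t : logSpace K, G I₀ t = ∫⁻ t : logSpace K, G I₀ t := by
      rw [tsum_eq_single I₀]
      · simp
      · intro I' hI'
        rw [if_neg, zero_mul]
        intro h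
        apply hI'
        apply Subtype.ext
        apply ii_cancel (C := J)
        rw [mul_comm, h, mul_comm]
    rw [h4] at h2
    rw [← h2]
    refine tsum_congr fun x => ?_
    congr 1
    refine lintegral_congr fun t => ?_
    have hx := norm_me_ne K (x : 𝓞 K) x.2.2
    rw [norm_sg_mul, if_pos hx, logMap_mul (by rw [norm_sg]; exact one_ne_zero) hx, logMap_sg]
  rw [← ENNReal.tsum_mul_left]
  have h5 : ∑' I₀ : Cls K A, torsionOrder K * ∫⁻ t : logSpace K, G I₀ t =
      ∑' I₀ : Cls K A, ∑' x : NZ K J, (if spn K (x : 𝓞 K) = (I₀ : II K) * J then 1 else 0) *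
      ∫⁻ t in FD K, G I₀ (t + logMap (mixedEmbedding K ((x : 𝓞 K) : K))) :=
    tsum_congr fun I₀ => (h1 I₀).symm
  rw [h5, ENNReal.tsum_comm]
  refine tsum_congr fun x => ?_
  rw [tsum_eq_single (cl K J A hJ x)]
  · rw [if_pos (cl_spec K J A hJ x), one_mul]
  · intro I' hI'
    rw [if_neg, zero_mul]
    intro h
    exact hI' ((cl_eq_iff K J A hJ x I').2 h).symm

theorem countable_NZ (J : II K) : Countable (NZ K J) := by
  have : Countable (𝓞 K) :=
    (NumberField.RingOfIntegers.basis K).equivFun.injective.countable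
  infer_instance

open scoped Classical in
/-- The unfolding identity for nonnegative integrable functions. -/
theorem unf_nonneg (J : II K) (A : ClassGroup (𝓞 K)) (hJ : ClassGroup.mk0 J = A⁻¹)
    (g : Cls K A → logSpace K → ℝ) (hg0 : ∀ I t, 0 ≤ g I t) (hgi : ∀ I, Integrable (g I))
    (hgm : ∀ I, Measurable (g I)) (hs : Summable fun I => ∫ t, g I t) :
    HasSum (fun x : NZ K J => ∫ t in FD K, g (cl K J A hJ x)
        (t + logMap (mixedEmbedding K ((x : 𝓞 K) : K))))
      (torsionOrder K * ∑' I : Cls K A, ∫ t : logSpace K, g I t) := by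
  have h1 := unf_lint K J A hJ (fun I t => ENNReal.ofReal (g I t))
    (fun I => ENNReal.measurable_ofReal.comp (hgm I))
  have h2 : ∀ I : Cls K A, ∫⁻ t : logSpace K, ENNReal.ofReal (g I t) =
      ENNReal.ofReal (∫ t, g I t) := fun I =>
    (ofReal_integral_eq_lintegral_ofReal (hgi I) (Filter.Eventually.of_forall (hg0 I))).symm
  have h3 : ∀ x : NZ K J, ∫⁻ t in FD K, ENNReal.ofReal (g (cl K J A hJ x)
        (t + logMap (mixedEmbedding K ((x : 𝓞 K) : K)))) =
      ENNReal.ofReal (∫ t in FD K, g (cl K J A hJ x)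
        (t + logMap (mixedEmbedding K ((x : 𝓞 K) : K)))) := fun x =>
    (ofReal_integral_eq_lintegral_ofReal (((hgi _).comp_add_right _).integrableOn)
      (Filter.Eventually.of_forall fun t => hg0 _ _)).symm
  simp only [h2, h3] at h1
  have h4 : ∀ I : Cls K A, 0 ≤ ∫ t, g I t := fun I => integral_nonneg (hg0 I)
  have h5 : ∀ x : NZ K J, 0 ≤ ∫ t in FD K, g (cl K J A hJ x)
        (t + logMap (mixedEmbedding K ((x : 𝓞 K) : K))) := fun x =>
    integral_nonneg fun t => hg0 _ _
  rw [← ENNReal.ofReal_tsum_of_nonneg h4 hs] at h1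
  have h6 : (torsionOrder K : ℝ≥0∞) * ENNReal.ofReal (∑' I : Cls K A, ∫ t, g I t) =
      ENNReal.ofReal (torsionOrder K * ∑' I : Cls K A, ∫ t, g I t) := by
    rw [ENNReal.ofReal_mul (by positivity), ENNReal.ofReal_natCast]
  rw [h6] at h1
  have h7 : Summable fun x : NZ K J => ∫ t in FD K, g (cl K J A hJ x)
        (t + logMap (mixedEmbedding K ((x : 𝓞 K) : K))) := by
    have h8 : ∑' x : NZ K J, ENNReal.ofReal (∫ t in FD K, g (cl K J A hJ x)
        (t + logMap (mixedEmbedding K ((x : 𝓞 K) : K)))) ≠ ⊤ := by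
      rw [h1]
      exact ENNReal.ofReal_ne_top
    refine (ENNReal.summable_toReal h8).congr fun x => ?_
    rw [ENNReal.toReal_ofReal (h5 x)]
  rw [← ENNReal.ofReal_tsum_of_nonneg h5 h7] at h1
  have h9 := (ENNReal.ofReal_eq_ofReal_iff (tsum_nonneg h5)
    (mul_nonneg (by positivity) (tsum_nonneg h4))).1 h1
  rw [← h9]
  exact h7.hasSum

open scoped Classical in
/-- The unfolding identity for complex functions. -/
theorem unf_complex (J : II K) (A : ClassGroup (𝓞 K)) (hJ : ClassGroup.mk0 J = A⁻¹)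
    (G : Cls K A → logSpace K → ℂ) (hGi : ∀ I, Integrable (G I))
    (hGm : ∀ I, Measurable (G I)) (hs : Summable fun I => ∫ t, ‖G I t‖) :
    (torsionOrder K : ℂ) * ∑' I : Cls K A, ∫ t : logSpace K, G I t =
      ∫ t in FD K, ∑' x : NZ K J, G (cl K J A hJ x)
        (t + logMap (mixedEmbedding K ((x : 𝓞 K) : K))) := by
  have hcount := countable_NZ K J
  -- exchange of the sum and the integral
  have h0 := unf_nonneg K J A hJ (fun I t => ‖G I t‖) (fun _ _ => norm_nonneg _)
    (fun I => (hGi I).norm) (fun I => (hGm I).norm) hs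
  have h1 : ∀ x : NZ K J, Integrable (fun t => G (cl K J A hJ x)
        (t + logMap (mixedEmbedding K ((x : 𝓞 K) : K)))) (volume.restrict (FD K)) := fun x =>
    ((hGi _).comp_add_right _).integrableOn
  have h2 := hasSum_integral_of_summable_integral_norm h1 h0.summable
  rw [← h2.tsum_eq]
  -- the four parts
  have hpart : ∀ p : ℂ → ℝ, (∀ z, 0 ≤ p z) → (∀ z, p z ≤ ‖z‖) → Continuous p →
      HasSum (fun x : NZ K J => ∫ t in FD K, p (G (cl K J A hJ x)
        (t + logMap (mixedEmbedding K ((x : 𝓞 K) : K)))))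
      (torsionOrder K * ∑' I : Cls K A, ∫ t : logSpace K, p (G I t)) ∧
      (∀ I, Integrable (fun t => p (G I t))) ∧ Summable fun I => ∫ t, p (G I t) := by
    intro p hp0 hp1 hpc
    have hi : ∀ I, Integrable (fun t => p (G I t)) := fun I =>
      (hGi I).norm.mono' (hpc.comp_aestronglyMeasurable (hGi I).aestronglyMeasurable)
        (Filter.Eventually.of_forall fun t => by
          rw [Real.norm_of_nonneg (hp0 _)]
          exact hp1 _)
    have hsum : Summable fun I => ∫ t, p (G I t) :=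
      Summable.of_nonneg_of_le (fun I => integral_nonneg fun t => hp0 _)
        (fun I => integral_mono (hi I) (hGi I).norm fun t => hp1 _) hs
    exact ⟨unf_nonneg K J A hJ (fun I t => p (G I t)) (fun _ _ => hp0 _) hi
      (fun I => hpc.measurable.comp (hGm I)) hsum, hi, hsum⟩
  obtain ⟨a1, a2, a3⟩ := hpart (fun z => max z.re 0) (fun z => le_max_right _ _)
    (fun z => max_le ((le_abs_self _).trans (Complex.abs_re_le_norm z)) (norm_nonneg _))
    (by fun_prop)
  obtain ⟨b1, b2, b3⟩ := hpart (fun z => max (-z.re) 0) (fun z => le_max_right _ _)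
    (fun z => max_le ((neg_le_abs _).trans (Complex.abs_re_le_norm z)) (norm_nonneg _))
    (by fun_prop)
  obtain ⟨c1, c2, c3⟩ := hpart (fun z => max z.im 0) (fun z => le_max_right _ _)
    (fun z => max_le ((le_abs_self _).trans (Complex.abs_im_le_norm z)) (norm_nonneg _))
    (by fun_prop)
  obtain ⟨d1, d2, d3⟩ := hpart (fun z => max (-z.im) 0) (fun z => le_max_right _ _)
    (fun z => max_le ((neg_le_abs _).trans (Complex.abs_im_le_norm z)) (norm_nonneg _))
    (by fun_prop)
  have hdec : ∀ z : ℂ, z = (((max z.re 0 : ℝ) : ℂ) - ((max (-z.re) 0 : ℝ) : ℂ)) +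
      (((max z.im 0 : ℝ) : ℂ) - ((max (-z.im) 0 : ℝ) : ℂ)) * Complex.I := by
    intro z
    have e1 : max z.re 0 - max (-z.re) 0 = z.re := by
      rcases le_total 0 z.re with h | h
      · rw [max_eq_left h, max_eq_right (by linarith), sub_zero]
      · rw [max_eq_right h, max_eq_left (by linarith)]; ring
    have e2 : max z.im 0 - max (-z.im) 0 = z.im := by
      rcases le_total 0 z.im with h | h
      · rw [max_eq_left h, max_eq_right (by linarith), sub_zero]
      · rw [max_eq_right h, max_eq_left (by linarith)]; ring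
    rw [← Complex.ofReal_sub, ← Complex.ofReal_sub, e1, e2]
    exact (Complex.re_add_im z).symm
  have hval : ∀ (μ : Measure (logSpace K)) (f : logSpace K → ℂ),
      Integrable (fun t => max (f t).re 0) μ → Integrable (fun t => max (-(f t).re) 0) μ →
      Integrable (fun t => max (f t).im 0) μ → Integrable (fun t => max (-(f t).im) 0) μ →
      ∫ t, f t ∂μ = (((∫ t, max (f t).re 0 ∂μ : ℝ) : ℂ) - ((∫ t, max (-(f t).re) 0 ∂μ : ℝ) : ℂ)) +
        (((∫ t, max (f t).im 0 ∂μ : ℝ) : ℂ) - ((∫ t, max (-(f t).im) 0 ∂μ : ℝ) : ℂ)) *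
          Complex.I := by
    intro μ f i1 i2 i3 i4
    have e : ∫ t, f t ∂μ = ∫ t, ((((max (f t).re 0 : ℝ) : ℂ) - ((max (-(f t).re) 0 : ℝ) : ℂ)) +
        (((max (f t).im 0 : ℝ) : ℂ) - ((max (-(f t).im) 0 : ℝ) : ℂ)) * Complex.I) ∂μ :=
      integral_congr_ae (Filter.Eventually.of_forall fun t => hdec (f t))
    have j1 : Integrable (fun t => ((max (f t).re 0 : ℝ) : ℂ)) μ := i1.ofReal
    have j2 : Integrable (fun t => ((max (-(f t).re) 0 : ℝ) : ℂ)) μ := i2.ofReal
    have j3 : Integrable (fun t => ((max (f t).im 0 : ℝ) : ℂ)) μ := i3.ofReal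
    have j4 : Integrable (fun t => ((max (-(f t).im) 0 : ℝ) : ℂ)) μ := i4.ofReal
    have k1 : Integrable (fun t => ((max (f t).re 0 : ℝ) : ℂ) - ((max (-(f t).re) 0 : ℝ) : ℂ)) μ :=
      j1.sub j2
    have k2 : Integrable (fun t => (((max (f t).im 0 : ℝ) : ℂ) - ((max (-(f t).im) 0 : ℝ) : ℂ)) *
        Complex.I) μ := (j3.sub j4).mul_const _
    rw [e, integral_add k1 k2, integral_sub j1 j2, integral_mul_const, integral_sub j3 j4]
    congr 1
    · congr 1 <;> exact integral_ofReal
    · congr 2 <;> exact integral_ofReal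
  have hx : ∀ x : NZ K J, ∀ (p : ℂ → ℝ), (∀ I, Integrable (fun t => p (G I t))) →
      Integrable (fun t => p (G (cl K J A hJ x)
        (t + logMap (mixedEmbedding K ((x : 𝓞 K) : K))))) (volume.restrict (FD K)) :=
    fun x p hp => ((hp (cl K J A hJ x)).comp_add_right _).integrableOn
  have hL : HasSum (fun x : NZ K J => ∫ t in FD K, G (cl K J A hJ x)
        (t + logMap (mixedEmbedding K ((x : 𝓞 K) : K))))
      ((((torsionOrder K * ∑' I : Cls K A, ∫ t : logSpace K, max (G I t).re 0 : ℝ) : ℂ) -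
        ((torsionOrder K * ∑' I : Cls K A, ∫ t : logSpace K, max (-(G I t).re) 0 : ℝ) : ℂ)) +
        (((torsionOrder K * ∑' I : Cls K A, ∫ t : logSpace K, max (G I t).im 0 : ℝ) : ℂ) -
        ((torsionOrder K * ∑' I : Cls K A, ∫ t : logSpace K, max (-(G I t).im) 0 : ℝ) : ℂ)) *
          Complex.I) := by
    have h3 := ((Complex.hasSum_ofReal.2 a1).sub (Complex.hasSum_ofReal.2 b1)).add
      (((Complex.hasSum_ofReal.2 c1).sub (Complex.hasSum_ofReal.2 d1)).mul_right Complex.I)
    refine h3.congr_fun fun x => ?_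
    rw [hval _ _ (hx x (fun z => max z.re 0) a2) (hx x (fun z => max (-z.re) 0) b2)
      (hx x (fun z => max z.im 0) c2) (hx x (fun z => max (-z.im) 0) d2)]
  rw [hL.tsum_eq]
  have hR : ∑' I : Cls K A, ∫ t : logSpace K, G I t =
      ((((∑' I : Cls K A, ∫ t : logSpace K, max (G I t).re 0 : ℝ) : ℂ) -
        ((∑' I : Cls K A, ∫ t : logSpace K, max (-(G I t).re) 0 : ℝ) : ℂ)) +
        (((∑' I : Cls K A, ∫ t : logSpace K, max (G I t).im 0 : ℝ) : ℂ) -
        ((∑' I : Cls K A, ∫ t : logSpace K, max (-(G I t).im) 0 : ℝ) : ℂ)) *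
          Complex.I) := by
    have h3 := ((Complex.hasSum_ofReal.2 a3.hasSum).sub (Complex.hasSum_ofReal.2 b3.hasSum)).add
      (((Complex.hasSum_ofReal.2 c3.hasSum).sub
        (Complex.hasSum_ofReal.2 d3.hasSum)).mul_right Complex.I)
    rw [← h3.tsum_eq]
    refine tsum_congr fun I => ?_
    exact hval _ _ (a2 I) (b2 I) (c2 I) (d2 I)
  rw [hR]
  push_cast
  ring

end Gen

end Pool.Agent.TRF
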