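import Pool.Agent.CMZ.Unf
import Pool.Agent.CMZ.Dual

/-!
# Class group L-functions of totally real fields: definitions
-/

open scoped NumberField nonZeroDivisors
open NumberField NumberField.InfinitePlace NumberField.mixedEmbedding NumberField.Units
  NumberField.Units.dirichletUnitTheorem Pool.ZD Pool.Agent.CMZ

namespace Pool.Agent.TRF

noncomputable section

variable (K : Type) [Field K] [NumberField K]

/-- The value of a class group character at an ideal. -/
def cv (χ : ClassGroup (𝓞 K) →* ℂ) (I : II K) : ℂ := χ (ClassGroup.mk0 I)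

open scoped Classical in
/-- The kernel: the `n`-fold multiplicative convolution of `2 exp(-π y ^ 2)`. -/
def kar (y : ℝ) : ℝ :=
  2 ^ nn K * ∫ t : logSpace K, Real.exp (-(Real.pi * y ^ (2 / (nn K : ℝ)) *
    ∑ w : InfinitePlace K, sc K t w ^ 2))

/-- The absolute value of the discriminant. -/
def DR : ℝ := |(discr K : ℝ)|

/-- `g(v) = e^(v/2) ∑ χ(I) kar(N I e^v / √D)`. -/
def gr (χ : ClassGroup (𝓞 K) →* ℂ) (v : ℝ) : ℂ :=
  (Real.exp (v / 2) : ℂ) * ∑' I : II K, cv K χ I * (kar K (nm K I * Real.exp v / √(DR K)) : ℂ)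

/-- The completed L-function `D^(s/2) Γ_ℝ(s)^n L(s,χ)`. -/
def LamR (χ : ClassGroup (𝓞 K) →* ℂ) (s : ℂ) : ℂ :=
  ∫ v : ℝ, gr K χ v * Complex.exp ((s - 1 / 2) * v)

/-- The L-function. -/
def LR (χ : ClassGroup (𝓞 K) →* ℂ) (s : ℂ) : ℂ :=
  LamR K χ s * (DR K : ℂ) ^ (-s / 2) * ((Complex.Gammaℝ s)⁻¹) ^ nn K

end

end Pool.Agent.TRF
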