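import Pool.Agent.TRF.Kernel

/-!
# The theta transformation for the ideals of a totally real field
-/

open scoped NumberField nonZeroDivisors InnerProductSpace Pointwise
open NumberField NumberField.InfinitePlace NumberField.mixedEmbedding NumberField.Units
  NumberField.Units.dirichletUnitTheorem Pool.ZD Pool.Agent.CMZ Pool.Agent.CMZ.DualAux

namespace Pool.Agent.TRF

set_option linter.unusedSectionVars false

variable (K : Type) [Field K] [NumberField K] [IsTotallyReal K]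

open scoped Classical in
theorem norm_Dt (t : logSpace K) (y : mixedSpace K) :
    ‖(euclidean.toMixed K).symm (Dt K t y)‖ = en K (sg K (-t) * y) := by
  rw [← en_eq]
  unfold en
  have h1 : ∀ w : InfinitePlace K, normAtPlace w (Dt K t y) ^ 2 =
      normAtPlace w (sg K (-t) * y) ^ 2 := by
    intro w
    have hw : IsReal w := IsTotallyReal.isReal w
    rw [normAtPlace_sg_mul, normAtPlace_apply_of_isReal hw, normAtPlace_apply_of_isReal hw]
    have h2 : ‖(Dt K t y).1 ⟨w, hw⟩‖ = (sc K (-t) w * ‖y.1 ⟨w, hw⟩‖) := by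
      show ‖y.1 ⟨w, hw⟩ * sc K (-t) w‖ = _
      rw [norm_mul, Real.norm_eq_abs (sc K (-t) w), abs_of_pos (sc_pos K _ w)]
      ring
    rw [h2]
  simp only [h1]

/-- The theta function of an ideal lattice is summable. -/
theorem theta_summable (J : II K) {c : ℝ} (hc : 0 < c) (t : logSpace K) :
    Summable fun x : (J : Ideal (𝓞 K)) =>
      Real.exp (-(c * en K (sg K t * mixedEmbedding K ((x : 𝓞 K) : K)) ^ 2)) := by
  classical
  obtain ⟨e, he⟩ := exists_equiv K J
  rw [← e.summable_iff]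
  have h := gauss_summable (BB K J t one_ne_zero) hc
    ((euclidean.toMixed K).symm (sg K t * mixedEmbedding K (0 : K)))
  refine h.congr fun k => ?_
  rw [Function.comp_apply, en_eq, shift_eq K J t one_ne_zero 0 k _ (he k)]
  simp

theorem theta_dual {J J' : II K} {n₀ : ℕ} (hn₀ : 0 < n₀)
    (hJ : (J' : Ideal (𝓞 K)) * ((J : Ideal (𝓞 K)) * differentIdeal ℤ (𝓞 K)) =
      Ideal.span {(n₀ : 𝓞 K)}) {c : ℝ} (hc : 0 < c) (t : logSpace K) :
    ∑' x : (J : Ideal (𝓞 K)), Real.exp (-(Real.pi * c *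
        en K (sg K t * mixedEmbedding K ((x : 𝓞 K) : K)) ^ 2)) =
      (√c ^ nn K * nm K J * √|(discr K : ℝ)|)⁻¹ *
        ∑' x' : (J' : Ideal (𝓞 K)), Real.exp (-(Real.pi * (1 / (c * (n₀ : ℝ) ^ 2)) *
          en K (sg K (-t) * mixedEmbedding K ((x' : 𝓞 K) : K)) ^ 2)) := by
  classical
  obtain ⟨e, he⟩ := exists_equiv K J
  obtain ⟨e', he'⟩ := exists_equiv_dual K hn₀ hJ
  have hn₀' : (0:ℝ) < n₀ := by exact_mod_cast hn₀
  set ρ : ℝ := √c with hρ
  have hρ0 : 0 < ρ := Real.sqrt_pos.mpr hc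
  have hρ2 : ρ ^ 2 = c := Real.sq_sqrt hc.le
  obtain ⟨B', hB', hBB⟩ := exists_dual_basis K J t hρ0.ne'
  have hmain := gauss_poisson (BB K J t hρ0.ne') B' hBB 0
  -- left side
  have hL : ∀ k : ix K J → ℤ, (Real.pi * ‖(∑ i, (k i : ℝ) • BB K J t hρ0.ne' i) + 0‖ ^ 2) =
      Real.pi * c * en K (sg K t * mixedEmbedding K ((e k : 𝓞 K) : K)) ^ 2 := by
    intro k
    rw [add_zero, sum_BB, ← he k, _root_.norm_smul, ← en_eq, mul_pow, Real.norm_eq_abs, sq_abs, hρ2]
    ring
  -- right side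
  have hη : ∀ l : ix K J → ℤ, mixedEmbedding K (((e' l : 𝓞 K) : K)) =
      (n₀ : ℝ) • mixedEmbedding K (∑ i, (l i : ℚ) • bd K J i) := by
    intro l
    rw [he' l, map_mul, map_natCast, ← nsmul_eq_mul, Nat.cast_smul_eq_nsmul]
  have hsumB' : ∀ l : ix K J → ℤ, ∑ i, (l i : ℝ) • B' i =
      ρ⁻¹ • (euclidean.toMixed K).symm (Dt K t (mixedEmbedding K (∑ i, (l i : ℚ) • bd K J i))) := by
    intro l
    rw [← sum_B']
    exact Finset.sum_congr rfl fun i _ => by rw [hB' i]
  have hR1 : ∀ l : ix K J → ℤ, Real.pi * ‖∑ i, (l i : ℝ) • B' i‖ ^ 2 =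
      Real.pi * (1 / (c * (n₀ : ℝ) ^ 2)) *
          en K (sg K (-t) * mixedEmbedding K ((e' l : 𝓞 K) : K)) ^ 2 := by
    intro l
    rw [hsumB', _root_.norm_smul, norm_Dt, hη, mul_smul_comm]
    have h1 : ∀ y : mixedSpace K, en K ((n₀ : ℝ) • y) = n₀ * en K y := by
      intro y
      rw [en_eq, en_eq, map_smul, _root_.norm_smul, Real.norm_eq_abs, abs_of_pos hn₀']
    rw [h1, Real.norm_eq_abs, mul_pow, sq_abs, inv_pow, hρ2]
    field_simp
  have hV : (MeasureTheory.volume (ZSpan.fundamentalDomain (BB K J t hρ0.ne'))).toReal =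
      ρ ^ nn K * nm K J * √|(discr K : ℝ)| := by
    rw [volume_BB K J t hρ0, IsTotallyReal.nrComplexPlaces_eq_zero K, pow_zero]
    ring
  rw [← e.tsum_eq, ← e'.tsum_eq, ← hV]
  simp only [hL, hR1, inner_zero_right, Complex.ofReal_zero, mul_zero, Complex.exp_zero,
    mul_one] at hmain
  exact_mod_cast hmain

end Pool.Agent.TRF
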