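import Pool.Agent.TRF.Unf
import Pool.Agent.CMZ.FuncEq

/-!
# The functional equation for one ideal class
-/

open scoped NumberField nonZeroDivisors
open NumberField NumberField.InfinitePlace NumberField.mixedEmbedding NumberField.Units
  NumberField.Units.dirichletUnitTheorem Pool.ZD Pool.Agent.CMZ Pool.Agent.CMZ.UnfAux
  MeasureTheory

namespace Pool.Agent.TRF

set_option linter.unusedSectionVars false

variable (K : Type) [Field K] [NumberField K] [IsTotallyReal K]

open scoped ENNReal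

open scoped Classical in
theorem en_sg_sq (t : logSpace K) (x : mixedSpace K) (hx : mixedEmbedding.norm x ≠ 0) :
    en K (sg K t * x) ^ 2 = mixedEmbedding.norm x ^ (2 / (nn K : ℝ)) *
      ∑ w : InfinitePlace K, sc K (t + logMap x) w ^ 2 := by
  have hpos : 0 < mixedEmbedding.norm x :=
    lt_of_le_of_ne (mixedEmbedding.norm_nonneg x) (Ne.symm hx)
  have hm : (0 : ℝ) < (nn K : ℝ) := nnR_pos K
  unfold en
  rw [Real.sq_sqrt (Finset.sum_nonneg fun w _ => sq_nonneg _), Finset.mul_sum]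
  refine Finset.sum_congr rfl fun w _ => ?_
  rw [normAtPlace_sg_mul, sc_add, sc_logMap K x hx, mul_pow, mul_pow, mul_pow,
    ← Real.exp_nat_mul]
  have h1 : mixedEmbedding.norm x ^ (2 / (nn K : ℝ)) *
      Real.exp (((2 : ℕ) : ℝ) * -(Real.log (mixedEmbedding.norm x) / (nn K : ℝ))) = 1 := by
    rw [Real.rpow_def_of_pos hpos, ← Real.exp_add, Real.exp_eq_one_iff]
    push_cast
    field_simp
    ring
  calc sc K t w ^ 2 * normAtPlace w x ^ 2 = (mixedEmbedding.norm x ^ (2 / (nn K : ℝ)) *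
      Real.exp (((2 : ℕ) : ℝ) * -(Real.log (mixedEmbedding.norm x) / (nn K : ℝ)))) *
        (sc K t w ^ 2 * normAtPlace w x ^ 2) := by rw [h1, one_mul]
    _ = _ := by ring

open scoped Classical in
theorem hH_aux {a : ℝ} (ha : 0 < a) (x : mixedSpace K) (hx : mixedEmbedding.norm x ≠ 0) :
    ∫⁻ t : logSpace K, ENNReal.ofReal (Real.exp (-(Real.pi * a *
        en K (sg K t * x) ^ 2))) =
      ENNReal.ofReal ((2 ^ nn K)⁻¹ * kar K (√a ^ nn K * mixedEmbedding.norm x)) := by
  have hpos : 0 < mixedEmbedding.norm x :=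
    lt_of_le_of_ne (mixedEmbedding.norm_nonneg x) (Ne.symm hx)
  have hm : (0 : ℝ) < (nn K : ℝ) := nnR_pos K
  set b : ℝ := Real.pi * (√a ^ nn K * mixedEmbedding.norm x) ^ (2 / (nn K : ℝ)) with hb
  have hbpos : 0 < b := by
    rw [hb]
    have := Real.pi_pos
    positivity
  have h0 : (√a ^ nn K) ^ (2 / (nn K : ℝ)) = a := by
    rw [← Real.rpow_natCast, ← Real.rpow_mul (Real.sqrt_nonneg _)]
    have : ((nn K : ℕ) : ℝ) * (2 / (nn K : ℝ)) = 2 := by field_simp
    rw [this, Real.rpow_two, Real.sq_sqrt ha.le]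
  have h1 : ∀ t : logSpace K, Real.pi * a * en K (sg K t * x) ^ 2 =
      b * ∑ w : InfinitePlace K, sc K (t + logMap x) w ^ 2 := by
    intro t
    rw [en_sg_sq K t x hx, hb, Real.mul_rpow (by positivity) hpos.le, h0]
    ring
  have h2 : (2 ^ nn K)⁻¹ * kar K (√a ^ nn K * mixedEmbedding.norm x) =
      ∫ t : logSpace K, Real.exp (-(b * ∑ w : InfinitePlace K, sc K t w ^ 2)) := by
    unfold kar
    rw [← mul_assoc, inv_mul_cancel₀ (by positivity), one_mul]
  rw [h2, ofReal_integral_eq_lintegral_ofReal (kar_integrable K hbpos)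
    (Filter.Eventually.of_forall fun t => (Real.exp_pos _).le)]
  simp only [h1]
  exact lintegral_add_right_eq_self
    (fun t : logSpace K => ENNReal.ofReal (Real.exp (-(b * ∑ w : InfinitePlace K, sc K t w ^ 2))))
    (logMap x)

/-- The theta series without the term at zero. -/
noncomputable def ths (J : II K) (a : ℝ) (t : logSpace K) : ℝ :=
  ∑' x : NZ K J, Real.exp (-(Real.pi * a *
    en K (sg K t * mixedEmbedding K ((x : 𝓞 K) : K)) ^ 2))

theorem ths_summable (J : II K) {a : ℝ} (ha : 0 < a) (t : logSpace K) :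
    Summable fun x : NZ K J => Real.exp (-(Real.pi * a *
      en K (sg K t * mixedEmbedding K ((x : 𝓞 K) : K)) ^ 2)) := by
  set f : 𝓞 K → ℝ := fun x => Real.exp (-(Real.pi * a *
      en K (sg K t * mixedEmbedding K (x : K)) ^ 2)) with hf
  have h : Summable fun x : (J : Ideal (𝓞 K)) => f x :=
    theta_summable K J (c := Real.pi * a) (by positivity) t
  have hg : Function.Injective (fun x : NZ K J => (⟨x.1, x.2.1⟩ : (J : Ideal (𝓞 K)))) := by
    intro x y h
    exact Subtype.ext (congrArg (fun z : (J : Ideal (𝓞 K)) => (z : 𝓞 K)) h)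
  have h2 := h.comp_injective hg
  exact h2

theorem ths_add_one (J : II K) {a : ℝ} (ha : 0 < a) (t : logSpace K) :
    ∑' x : (J : Ideal (𝓞 K)), Real.exp (-(Real.pi * a *
        en K (sg K t * mixedEmbedding K ((x : 𝓞 K) : K)) ^ 2)) = 1 + ths K J a t := by
  classical
  have h := theta_summable K J (c := Real.pi * a) (by positivity) t
  rw [h.tsum_eq_add_tsum_ite 0]
  have h0 : Real.exp (-(Real.pi * a *
        en K (sg K t * mixedEmbedding K (((0 : (J : Ideal (𝓞 K))) : 𝓞 K) : K)) ^ 2)) = 1 := by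
    have : en K (sg K t * mixedEmbedding K (((0 : (J : Ideal (𝓞 K))) : 𝓞 K) : K)) = 0 := by
      have h1 : (((0 : (J : Ideal (𝓞 K))) : 𝓞 K) : K) = 0 := by simp
      rw [h1, map_zero, mul_zero]
      unfold en
      simp
    rw [this]
    simp
  rw [h0]
  congr 1
  unfold ths
  let g : NZ K J → (J : Ideal (𝓞 K)) := fun x => ⟨x.1, x.2.1⟩
  have hg : Function.Injective g := by
    intro x y h
    exact Subtype.ext (congrArg (fun z : (J : Ideal (𝓞 K)) => (z : 𝓞 K)) h)
  have h1 := hg.tsum_eq (f := fun x : (J : Ideal (𝓞 K)) => if x = 0 then 0 else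
      Real.exp (-(Real.pi * a * en K (sg K t * mixedEmbedding K ((x : 𝓞 K) : K)) ^ 2))) (by
    intro x hx
    have hx0 : (x : 𝓞 K) ≠ 0 := by
      intro h
      apply hx
      have : x = 0 := Subtype.ext h
      simp [this]
    exact ⟨⟨x.1, x.2, hx0⟩, rfl⟩)
  rw [← h1]
  refine tsum_congr fun x => ?_
  rw [if_neg]
  intro h
  exact x.2.2 (congrArg (fun z : (J : Ideal (𝓞 K)) => (z : 𝓞 K)) h)

theorem ths_nonneg (J : II K) (a : ℝ) (t : logSpace K) : 0 ≤ ths K J a t :=
  tsum_nonneg fun _ => (Real.exp_pos _).le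

open scoped Classical in
/-- The general form of the unfolding. -/
theorem kar_unf_gen (J : II K) (A : ClassGroup (𝓞 K)) {y : ℝ} (hy : 0 < y)
    (ν : logSpace K → logSpace K) (hν : Continuous ν)
    (hU : ∀ (Gf : mixedSpace K → ℝ≥0∞) (_ : Measurable Gf)
      (_ : ∀ x y : mixedSpace K, (∀ w, normAtPlace w x = normAtPlace w y) → Gf x = Gf y)
      (H : ℝ → ℝ≥0∞) (_ : ∀ x : mixedSpace K, mixedEmbedding.norm x ≠ 0 →
        ∫⁻ t : logSpace K, Gf (sg K t * x) = H (mixedEmbedding.norm x)),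
      ∑' x : NZ K J,
        ∫⁻ t in FD K, Gf (sg K (ν t) * mixedEmbedding K ((x : 𝓞 K) : K)) =
        torsionOrder K * ∑' I : Cls K A, H (nm K I * nm K J)) :
    IntegrableOn (fun t => ths K J ((y / nm K J) ^ (2 / (nn K : ℝ))) (ν t)) (FD K) ∧
    (torsionOrder K : ℝ) * ∑' I : Cls K A, kar K (nm K I * y) =
      2 ^ nn K * ∫ t in FD K, ths K J ((y / nm K J) ^ (2 / (nn K : ℝ))) (ν t) := by
  have hJ0 : 0 < nm K J := nm_pos J
  have hn : (0 : ℝ) < (nn K : ℝ) := nnR_pos K
  set a : ℝ := (y / nm K J) ^ (2 / (nn K : ℝ)) with ha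
  have ha0 : 0 < a := by rw [ha]; positivity
  have ham : √a ^ nn K = y / nm K J := by
    rw [Real.sqrt_eq_rpow, ha, ← Real.rpow_natCast, ← Real.rpow_mul (by positivity),
      ← Real.rpow_mul (by positivity)]
    have : 2 / (nn K : ℝ) * (1 / 2 * ((nn K : ℕ) : ℝ)) = 1 := by field_simp
    rw [this, Real.rpow_one]
  have hcount := Gen.countable_NZ K J
  set F : NZ K J → logSpace K → ℝ := fun x t => Real.exp (-(Real.pi * a *
    en K (sg K (ν t) * mixedEmbedding K ((x : 𝓞 K) : K)) ^ 2)) with hF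
  have hFc : ∀ x, Continuous (F x) := by
    intro x
    have h1 : Continuous fun t : logSpace K =>
        en K (sg K (ν t) * mixedEmbedding K ((x : 𝓞 K) : K)) :=
      (continuous_en K).comp (((continuous_sg K).comp hν).mul continuous_const)
    exact Real.continuous_exp.comp ((continuous_const.mul (h1.pow 2)).neg)
  have hF0 : ∀ x t, 0 ≤ F x t := fun x t => (Real.exp_pos _).le
  have hGm : Measurable fun z : mixedSpace K =>
      ENNReal.ofReal (Real.exp (-(Real.pi * a * en K z ^ 2))) := by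
    have h1 : Continuous fun z : mixedSpace K => Real.exp (-(Real.pi * a * en K z ^ 2)) :=
      Real.continuous_exp.comp ((continuous_const.mul ((continuous_en K).pow 2)).neg)
    exact ENNReal.measurable_ofReal.comp h1.measurable
  have h1 := hU (fun z => ENNReal.ofReal (Real.exp (-(Real.pi * a * en K z ^ 2))))
      hGm
      (fun z z' hz => by
        have : en K z = en K z' := by
          unfold en
          simp only [hz]
        rw [this])
      (fun N => ENNReal.ofReal ((2 ^ nn K)⁻¹ * kar K (√a ^ nn K * N)))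
      (fun z hz => hH_aux K ha0 z hz)
  have h2 : ∀ I : Cls K A, √a ^ nn K * (nm K (I : II K) * nm K J) = nm K (I : II K) * y := by
    intro I
    rw [ham]
    field_simp
  simp only [h2] at h1
  have hκ0 : ∀ I : Cls K A, 0 ≤ (2 ^ nn K)⁻¹ * kar K (nm K (I : II K) * y) := fun I => by
    have := kar_nonneg K (nm K (I : II K) * y)
    positivity
  have hκs : Summable fun I : Cls K A => (2 ^ nn K)⁻¹ * kar K (nm K (I : II K) * y) :=
    ((kar_summable K hy).comp_injective Subtype.val_injective).mul_left _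
  rw [← ENNReal.ofReal_tsum_of_nonneg hκ0 hκs] at h1
  -- the left side
  have h3 : ∑' x : NZ K J, ∫⁻ t in FD K, ENNReal.ofReal (F x t) =
      ∫⁻ t in FD K, ENNReal.ofReal (ths K J a (ν t)) := by
    rw [← lintegral_tsum (f := fun (x : NZ K J) t => ENNReal.ofReal (F x t))
      (fun x => (ENNReal.measurable_ofReal.comp (hFc x).measurable).aemeasurable)]
    refine lintegral_congr fun t => ?_
    rw [← ENNReal.ofReal_tsum_of_nonneg (fun x => hF0 x t) (ths_summable K J ha0 (ν t))]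
    rfl
  rw [h3] at h1
  have hmeas : AEStronglyMeasurable (fun t => ths K J a (ν t)) (volume.restrict (FD K)) := by
    have : Measurable fun t => ths K J a (ν t) := by
      have h4 : (fun t => ths K J a (ν t)) = fun t =>
          (∑' x : NZ K J, ENNReal.ofReal (F x t)).toReal := by
        funext t
        rw [← ENNReal.ofReal_tsum_of_nonneg (fun x => hF0 x t) (ths_summable K J ha0 (ν t)),
          ENNReal.toReal_ofReal (tsum_nonneg fun x => hF0 x t)]
        rfl
      rw [h4]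
      exact (Measurable.ennreal_tsum fun x =>
        ENNReal.measurable_ofReal.comp (hFc x).measurable).ennreal_toReal
    exact this.aestronglyMeasurable
  have hfin : ∫⁻ t in FD K, ENNReal.ofReal (ths K J a (ν t)) ≠ ⊤ := by
    rw [h1]
    exact ENNReal.mul_ne_top (ENNReal.natCast_ne_top _) ENNReal.ofReal_ne_top
  have hint : IntegrableOn (fun t => ths K J a (ν t)) (FD K) := by
    refine ⟨hmeas, ?_⟩
    rw [hasFiniteIntegral_iff_ofReal (Filter.Eventually.of_forall fun t => ths_nonneg K J a _)]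
    exact lt_top_iff_ne_top.2 hfin
  refine ⟨hint, ?_⟩
  rw [← ofReal_integral_eq_lintegral_ofReal hint
    (Filter.Eventually.of_forall fun t => ths_nonneg K J a _)] at h1
  have h5 : (torsionOrder K : ℝ≥0∞) * ENNReal.ofReal
      (∑' I : Cls K A, (2 ^ nn K)⁻¹ * kar K (nm K (I : II K) * y)) =
      ENNReal.ofReal (torsionOrder K *
        ∑' I : Cls K A, (2 ^ nn K)⁻¹ * kar K (nm K (I : II K) * y)) := by
    rw [ENNReal.ofReal_mul (by positivity), ENNReal.ofReal_natCast]
  rw [h5] at h1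
  have h6 := (ENNReal.ofReal_eq_ofReal_iff
    (integral_nonneg fun t => ths_nonneg K J a _)
    (mul_nonneg (by positivity) (tsum_nonneg hκ0))).1 h1
  rw [h6, tsum_mul_left]
  have h7 : (2 : ℝ) ^ nn K ≠ 0 := by positivity
  generalize (∑' x : Cls K A, kar K (nm K (x : II K) * y)) = X
  field_simp

open scoped Classical in
theorem kar_unf (J : II K) (A : ClassGroup (𝓞 K)) (hJ : ClassGroup.mk0 J = A⁻¹) {y : ℝ}
    (hy : 0 < y) :
    IntegrableOn (fun t => ths K J ((y / nm K J) ^ (2 / (nn K : ℝ))) t) (FD K) ∧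
    (torsionOrder K : ℝ) * ∑' I : Cls K A, kar K (nm K I * y) =
      2 ^ nn K * ∫ t in FD K, ths K J ((y / nm K J) ^ (2 / (nn K : ℝ))) t := by
  refine kar_unf_gen K J A hy id continuous_id fun Gf _ hGn H hH => ?_
  have h := unfoldW K J A hJ (fun _ => 1) Gf hGn H hH
  simpa only [one_mul, id_eq] using h

open scoped Classical in
theorem kar_unf_neg (J : II K) (A : ClassGroup (𝓞 K)) (hJ : ClassGroup.mk0 J = A⁻¹) {y : ℝ}
    (hy : 0 < y) :
    IntegrableOn (fun t => ths K J ((y / nm K J) ^ (2 / (nn K : ℝ))) (-t)) (FD K) ∧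
    (torsionOrder K : ℝ) * ∑' I : Cls K A, kar K (nm K I * y) =
      2 ^ nn K * ∫ t in FD K, ths K J ((y / nm K J) ^ (2 / (nn K : ℝ))) (-t) := by
  refine kar_unf_gen K J A hy (fun t => -t) continuous_neg fun Gf hG hGn H hH => ?_
  have h := unfoldW_neg K J A hJ (fun _ => 1) Gf hG hGn H hH
  simpa only [one_mul] using h

theorem DR_pos : 0 < DR K := by
  unfold DR
  rw [abs_pos]
  exact_mod_cast discr_ne_zero K

open scoped Classical in
/-- The functional equation for the ideals of one class. -/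
theorem class_eq (A : ClassGroup (𝓞 K)) {y : ℝ} (hy : 0 < y) :
    (torsionOrder K : ℝ) * ∑' I : Cls K A, kar K (nm K I * y) =
      (y * √(DR K))⁻¹ * ((torsionOrder K : ℝ) *
        ∑' I : Cls K (A⁻¹ * ClassGroup.mk0 (dI K)), kar K (nm K I * (y * DR K)⁻¹)) +
      2 ^ nn K * (volume.real (FD K) * ((y * √(DR K))⁻¹ - 1)) := by
  have hD : 0 < DR K := DR_pos K
  obtain ⟨J, hJA⟩ := ClassGroup.mk0_surjective A⁻¹
  set n₀ : ℕ := Ideal.absNorm ((J * dI K : II K) : Ideal (𝓞 K)) with hn₀def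
  have hn₀ : 0 < n₀ := by
    rw [hn₀def, Nat.pos_iff_ne_zero, Ne, Ideal.absNorm_eq_zero_iff]
    exact nonZeroDivisors.coe_ne_zero _
  have hn₀0 : ((n₀ : ℕ) : 𝓞 K) ≠ 0 := by exact_mod_cast hn₀.ne'
  obtain ⟨J', hJ'⟩ := FuncEqAux.exists_cofactor ((J * dI K : II K) : Ideal (𝓞 K))
    (Ideal.absNorm_mem _) hn₀0
  have hJJ : (J' : Ideal (𝓞 K)) * ((J : Ideal (𝓞 K)) * differentIdeal ℤ (𝓞 K)) =
      Ideal.span {(n₀ : 𝓞 K)} := hJ'
  have hJJ2 : J' * (J * dI K) = spn K (n₀ : 𝓞 K) := by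
    apply Subtype.ext
    rw [coe_spn hn₀0]
    exact hJJ
  have hnorm : nm K J' * (nm K J * DR K) = (n₀ : ℝ) ^ nn K := by
    unfold DR
    rw [← nm_dI K, ← nmul, ← nmul, hJJ2]
    unfold nm
    rw [coe_spn hn₀0, Ideal.absNorm_span_singleton]
    have h1 : Algebra.norm ℤ ((n₀ : ℕ) : 𝓞 K) = (n₀ : ℤ) ^ nn K := by
      have h2 := Algebra.norm_algebraMap_of_basis (RingOfIntegers.basis K) (n₀ : ℤ)
      rw [← Module.finrank_eq_card_basis (RingOfIntegers.basis K), RingOfIntegers.rank] at h2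
      rw [← h2]
      simp
    rw [h1]
    simp
  have hnmJ : 0 < nm K J := nm_pos J
  have hnmJ' : 0 < nm K J' := nm_pos J'
  have hn : (0 : ℝ) < (nn K : ℝ) := nnR_pos K
  set c : ℝ := (y / nm K J) ^ (2 / (nn K : ℝ)) with hcdef
  have hc : 0 < c := by positivity
  have hcm : √c ^ nn K = y / nm K J := by
    rw [Real.sqrt_eq_rpow, hcdef, ← Real.rpow_natCast, ← Real.rpow_mul (by positivity),
      ← Real.rpow_mul (by positivity)]
    have : 2 / (nn K : ℝ) * (1 / 2 * ((nn K : ℕ) : ℝ)) = 1 := by field_simp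
    rw [this, Real.rpow_one]
  have hn₀R : (0 : ℝ) < n₀ := by exact_mod_cast hn₀
  set c' : ℝ := 1 / (c * (n₀ : ℝ) ^ 2) with hc'def
  have hc' : 0 < c' := by positivity
  have hc'eq : ((y * DR K)⁻¹ / nm K J') ^ (2 / (nn K : ℝ)) = c' := by
    have h1 : ((y * DR K)⁻¹ / nm K J') = (√c' : ℝ) ^ (nn K : ℝ) := by
      have h2 : √c' = (√c)⁻¹ * (n₀ : ℝ)⁻¹ := by
        rw [hc'def, one_div, Real.sqrt_inv, Real.sqrt_mul hc.le, Real.sqrt_sq hn₀R.le, mul_inv]
      rw [Real.rpow_natCast, h2, mul_pow, inv_pow, inv_pow, hcm, ← hnorm]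
      field_simp
    rw [h1, ← Real.rpow_mul (Real.sqrt_nonneg _)]
    have : (nn K : ℝ) * (2 / (nn K : ℝ)) = 2 := by field_simp
    rw [this, Real.rpow_two, Real.sq_sqrt hc'.le]
  have hJ'A : ClassGroup.mk0 J' = (A⁻¹ * ClassGroup.mk0 (dI K))⁻¹ := by
    have h1 : ClassGroup.mk0 (J' * (J * dI K)) = 1 := by
      rw [hJJ2, ClassGroup.mk0_eq_one_iff, coe_spn hn₀0]
      exact ⟨⟨_, rfl⟩⟩
    rw [map_mul, map_mul, hJA] at h1
    exact eq_inv_of_mul_eq_one_left h1
  have hy' : 0 < (y * DR K)⁻¹ := by positivity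
  obtain ⟨i1, e1⟩ := kar_unf K J A hJA hy
  obtain ⟨i2, e2⟩ := kar_unf_neg K J' (A⁻¹ * ClassGroup.mk0 (dI K)) hJ'A hy'
  rw [hc'eq] at i2 e2
  rw [← hcdef] at i1 e1
  rw [e1, e2]
  have hV : volume (FD K) ≠ ⊤ := by
    have hb : Bornology.IsBounded (FD K) := ZSpan.fundamentalDomain_isBounded _
    exact hb.measure_lt_top.ne
  have hT : ∀ t : logSpace K, 1 + ths K J c t = (y * √(DR K))⁻¹ * (1 + ths K J' c' (-t)) := by
    intro t
    rw [← ths_add_one K J hc t, ← ths_add_one K J' hc' (-t), theta_dual K hn₀ hJJ hc t, hcm]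
    congr 2
    rw [div_mul_cancel₀ _ hnmJ.ne']
    rfl
  have hT2 : ∫ t in FD K, ths K J c t = ∫ t in FD K,
      ((y * √(DR K))⁻¹ * ths K J' c' (-t) + ((y * √(DR K))⁻¹ - 1)) := by
    refine integral_congr_ae (Filter.Eventually.of_forall fun t => ?_)
    simp only
    have := hT t
    linarith
  rw [hT2, integral_add (i2.const_mul _) (integrable_const_iff.2 (Or.inr ⟨by
    rw [Measure.restrict_apply_univ]; exact lt_top_iff_ne_top.2 hV⟩)), integral_const_mul,
    setIntegral_const, smul_eq_mul]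
  ring

end Pool.Agent.TRF
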