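import Pool.Agent.TRF.Defs
import Pool.Agent.CMZ.Sums

/-!
# The kernel of a totally real field
-/

open scoped NumberField nonZeroDivisors
open NumberField NumberField.InfinitePlace NumberField.mixedEmbedding NumberField.Units
  NumberField.Units.dirichletUnitTheorem Pool.ZD Pool.Agent.CMZ

namespace Pool.Agent.TRF

set_option linter.unusedSectionVars false

variable (K : Type) [Field K] [NumberField K] [IsTotallyReal K]

theorem nn_pos : 0 < nn K := Module.finrank_pos

theorem nnR_pos : (0 : ℝ) < nn K := by exact_mod_cast nn_pos K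

open scoped Classical in
theorem nn_card : nn K = Fintype.card {w : InfinitePlace K // w ≠ w₀} + 1 := by
  have h1 := card_eq_nrRealPlaces_add_nrComplexPlaces K
  rw [IsTotallyReal.nrComplexPlaces_eq_zero K, add_zero] at h1
  have h2 : 0 < Fintype.card (InfinitePlace K) := Fintype.card_pos
  have h3 : nn K = nrRealPlaces K := IsTotallyReal.finrank K
  rw [Fintype.card_subtype_compl, Fintype.card_subtype_eq]
  omega

open scoped Classical in
theorem sum_sc_sq (t : logSpace K) :
    ∑ w : InfinitePlace K, sc K t w ^ 2 = KapAux.SS ((2 : ℝ) • t) := by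
  rw [Fintype.sum_eq_add_sum_subtype_ne (fun w : InfinitePlace K => sc K t w ^ 2) w₀]
  unfold KapAux.SS
  rw [add_comm]
  congr 1
  · refine Finset.sum_congr rfl fun v _ => ?_
    have h := sc_pow_of_ne K t v
    rw [IsTotallyReal.mult_eq, pow_one] at h
    rw [h, ← Real.exp_nat_mul, Pi.smul_apply, smul_eq_mul]
    norm_num
  · have h := sc_pow_w₀ K t
    rw [IsTotallyReal.mult_eq, pow_one] at h
    rw [h, ← Real.exp_nat_mul]
    simp only [Pi.smul_apply, smul_eq_mul]
    rw [← Finset.mul_sum]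
    congr 1
    push_cast
    ring

open scoped Classical in
theorem JJ_two (c : ℝ) : ∫ t : logSpace K, Real.exp (-(c * ∑ w : InfinitePlace K, sc K t w ^ 2)) =
    (2 ^ (nn K - 1) : ℝ)⁻¹ * KapAux.JJ {w : InfinitePlace K // w ≠ w₀} c := by
  simp only [sum_sc_sq]
  have h := MeasureTheory.Measure.integral_comp_smul (MeasureTheory.volume : MeasureTheory.Measure (logSpace K))
    (fun t : logSpace K => Real.exp (-(c * KapAux.SS t))) 2
  rw [h]
  have h2 : Module.finrank ℝ (logSpace K) = nn K - 1 := by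
    rw [nn_card K]
    simp
  rw [h2, smul_eq_mul, abs_of_pos (by positivity)]
  rfl

open scoped Classical in
theorem kar_eq_JJ (y : ℝ) : kar K y = 2 *
    KapAux.JJ {w : InfinitePlace K // w ≠ w₀} (Real.pi * y ^ (2 / (nn K : ℝ))) := by
  unfold kar
  rw [JJ_two, ← mul_assoc]
  congr 1
  obtain ⟨m, hm⟩ : ∃ m, nn K = m + 1 := ⟨nn K - 1, by have := nn_pos K; omega⟩
  rw [hm, Nat.add_sub_cancel, pow_succ]
  field_simp

theorem kar_nonneg (y : ℝ) : 0 ≤ kar K y := by
  classical
  rw [kar_eq_JJ]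
  exact mul_nonneg (by positivity) (KapAux.JJ_nonneg _)

theorem kar_antitone : AntitoneOn (kar K) (Set.Ioi 0) := by
  classical
  intro x hx y _ hxy
  have hx' : 0 < x := hx
  rw [kar_eq_JJ, kar_eq_JJ]
  refine mul_le_mul_of_nonneg_left (KapAux.JJ_anti ?_ ?_) (by positivity)
  · have := Real.pi_pos
    positivity
  · refine mul_le_mul_of_nonneg_left ?_ (by positivity)
    exact Real.rpow_le_rpow hx'.le hxy (by positivity)

theorem kar_continuous : ContinuousOn (kar K) (Set.Ioi 0) := by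
  classical
  intro y hy
  have hy' : 0 < y := hy
  refine ContinuousAt.continuousWithinAt ?_
  have h : kar K = fun y => 2 *
    KapAux.JJ {w : InfinitePlace K // w ≠ w₀} (Real.pi * y ^ (2 / (nn K : ℝ))) :=
    funext fun y => kar_eq_JJ K y
  rw [h]
  refine ContinuousAt.mul continuousAt_const ?_
  have h2 : ContinuousAt (fun y : ℝ => Real.pi * y ^ (2 / (nn K : ℝ))) y :=
    continuousAt_const.mul (Real.continuousAt_rpow_const _ _ (Or.inl hy'.ne'))
  refine ContinuousAt.comp (g := KapAux.JJ {w : InfinitePlace K // w ≠ w₀}) ?_ h2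
  refine KapAux.JJ_cont ?_
  have := Real.pi_pos
  positivity

open scoped Classical in
theorem kar_integrable {c : ℝ} (hc : 0 < c) : MeasureTheory.Integrable fun t : logSpace K =>
    Real.exp (-(c * ∑ w : InfinitePlace K, sc K t w ^ 2)) := by
  simp only [sum_sc_sq]
  exact (KapAux.JJ_int (ι := {w : InfinitePlace K // w ≠ w₀}) hc).comp_smul two_ne_zero

open scoped Classical in
theorem kar_exp (v : ℝ) : kar K (Real.exp v) = 2 *
    KapAux.JJ {w : InfinitePlace K // w ≠ w₀} (Real.pi * Real.exp (2 * v / nn K)) := by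
  rw [kar_eq_JJ, ← Real.exp_mul]
  congr 4
  ring

theorem kar_mellin_integrable {s : ℂ} (hs : 0 < s.re) : MeasureTheory.Integrable fun v : ℝ =>
    (kar K (Real.exp v) : ℂ) * Complex.exp (s * v) := by
  classical
  have h := (KapAux.JJ_mellin_int (ι := {w : InfinitePlace K // w ≠ w₀})
    (c := Real.pi) (by positivity) (s := s / 2) (by simpa using hs)).const_mul (2 : ℂ)
  have h2 := h.comp_mul_left' (R := 2) two_ne_zero
  refine h2.congr (Filter.Eventually.of_forall fun v => ?_)
  simp only [kar_exp, ← nn_card]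
  push_cast
  rw [mul_assoc]
  congr 3
  ring

theorem kar_mellin {s : ℂ} (hs : 0 < s.re) :
    ∫ v : ℝ, (kar K (Real.exp v) : ℂ) * Complex.exp (s * v) = Complex.Gammaℝ s ^ nn K := by
  classical
  have h := KapAux.JJ_mellin (ι := {w : InfinitePlace K // w ≠ w₀})
    (c := Real.pi) (by positivity) (s := s / 2) (by simpa using hs)
  rw [← nn_card] at h
  have h1 : Complex.Gammaℝ s = ((Real.pi : ℝ) : ℂ) ^ (-(s / 2)) * Complex.Gamma (s / 2) := by
    rw [Complex.Gammaℝ_def, neg_div]
  rw [h1, ← h]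
  have h2 := MeasureTheory.Measure.integral_comp_mul_left (fun v : ℝ =>
    (KapAux.JJ {w : InfinitePlace K // w ≠ w₀} (Real.pi * Real.exp (v / (nn K : ℝ))) : ℂ) *
      Complex.exp (s / 2 * v)) 2
  have h3 : ∫ v : ℝ, (kar K (Real.exp v) : ℂ) * Complex.exp (s * v) =
      2 * ∫ v : ℝ, (KapAux.JJ {w : InfinitePlace K // w ≠ w₀}
        (Real.pi * Real.exp ((2 * v) / (nn K : ℝ))) : ℂ) * Complex.exp (s / 2 * ((2 * v : ℝ) : ℂ)) := by
    rw [← MeasureTheory.integral_const_mul]
    refine MeasureTheory.integral_congr_ae (Filter.Eventually.of_forall fun v => ?_)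
    simp only [kar_exp]
    push_cast
    rw [mul_assoc]
    congr 3
    ring
  rw [h3, h2]
  rw [abs_of_pos (by norm_num), Complex.real_smul]
  push_cast
  ring

/-- The shifted version. -/
theorem kar_mellin' {s : ℂ} (hs : 0 < s.re) {a : ℝ} (ha : 0 < a) :
    ∫ v : ℝ, (kar K (a * Real.exp v) : ℂ) * Complex.exp (s * v) =
      (a : ℂ) ^ (-s) * Complex.Gammaℝ s ^ nn K := by
  rw [← kar_mellin K hs, ← MeasureTheory.integral_add_right_eq_self
    (fun v : ℝ => (kar K (Real.exp v) : ℂ) * Complex.exp (s * v)) (Real.log a),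
    ← MeasureTheory.integral_const_mul]
  refine MeasureTheory.integral_congr_ae (Filter.Eventually.of_forall fun v => ?_)
  have e1 : Real.exp (v + Real.log a) = a * Real.exp v := by
    rw [Real.exp_add, Real.exp_log ha, mul_comm]
  have ha0 : (a : ℂ) ≠ 0 := by exact_mod_cast ha.ne'
  have e2 : Complex.exp (s * ((v + Real.log a : ℝ) : ℂ)) = Complex.exp (s * v) * (a : ℂ) ^ s := by
    rw [Complex.cpow_def_of_ne_zero ha0, ← Complex.exp_add, ← Complex.ofReal_log ha.le]
    congr 1
    push_cast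
    ring
  have e3 : (a : ℂ) ^ (-s) * (a : ℂ) ^ s = 1 := by
    rw [← Complex.cpow_add _ _ ha0, neg_add_cancel, Complex.cpow_zero]
  simp only [e1, e2]
  rw [show (a : ℂ) ^ (-s) * ((kar K (a * Real.exp v) : ℂ) * (Complex.exp (s * v) * (a : ℂ) ^ s)) =
    ((a : ℂ) ^ (-s) * (a : ℂ) ^ s) * ((kar K (a * Real.exp v) : ℂ) * Complex.exp (s * v)) by ring,
    e3, one_mul]

theorem kar_bound {a : ℝ} (ha : 0 < a) : ∃ C : ℝ, 0 < C ∧ ∀ y : ℝ, 0 < y →
    kar K y ≤ C * y ^ (-a) := by
  have h0 := (kar_mellin_integrable K (s := (a : ℂ)) (by simpa using ha)).norm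
  have h1 : MeasureTheory.Integrable fun v : ℝ => kar K (Real.exp v) * Real.exp (a * v) := by
    refine h0.congr (Filter.Eventually.of_forall fun v => ?_)
    simp only [norm_mul, Complex.norm_real, Complex.norm_exp]
    rw [Real.norm_of_nonneg (kar_nonneg K _)]
    congr 2
    simp
  set F : ℝ → ℝ := fun v => kar K (Real.exp v) * Real.exp (a * v) with hF
  have hF0 : ∀ v, 0 ≤ F v := fun v => mul_nonneg (kar_nonneg K _) (Real.exp_pos _).le
  have hI : 0 ≤ ∫ v, F v := MeasureTheory.integral_nonneg hF0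
  refine ⟨((∫ v, F v) + 1) * Real.exp a, by positivity, fun y hy => ?_⟩
  have h2 : kar K y * Real.exp (a * (Real.log y - 1)) ≤ ∫ v in Set.Icc (Real.log y - 1) (Real.log y), F v := by
    have h3 : kar K y * Real.exp (a * (Real.log y - 1)) *
        MeasureTheory.volume.real (Set.Icc (Real.log y - 1) (Real.log y)) ≤
        ∫ v in Set.Icc (Real.log y - 1) (Real.log y), F v := by
      refine MeasureTheory.setIntegral_ge_of_const_le_real measurableSet_Icc (by simp) ?_ h1.integrableOn
      intro v hv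
      refine mul_le_mul ?_ ?_ (Real.exp_pos _).le (kar_nonneg K _)
      · refine kar_antitone K (Real.exp_pos v) hy ?_
        rw [← Real.exp_log hy, Real.exp_le_exp]
        exact hv.2
      · rw [Real.exp_le_exp]
        exact mul_le_mul_of_nonneg_left hv.1 ha.le
    simpa using h3
  have h4 : ∫ v in Set.Icc (Real.log y - 1) (Real.log y), F v ≤ ∫ v, F v :=
    MeasureTheory.setIntegral_le_integral h1 (Filter.Eventually.of_forall hF0)
  have h5 : Real.exp (a * (Real.log y - 1)) = y ^ a * Real.exp (-a) := by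
    rw [Real.rpow_def_of_pos hy, ← Real.exp_add]
    congr 1
    ring
  have h6 : 0 < y ^ a := Real.rpow_pos_of_pos hy a
  rw [Real.rpow_neg hy.le]
  rw [h5] at h2
  have h7 : kar K y * (y ^ a * Real.exp (-a)) ≤ (∫ v, F v) + 1 := by linarith
  have h8 : Real.exp (-a) * Real.exp a = 1 := by
    rw [← Real.exp_add, neg_add_cancel, Real.exp_zero]
  have h9 := mul_le_mul_of_nonneg_right h7 (mul_pos (Real.exp_pos a) (inv_pos.2 h6)).le
  calc kar K y = kar K y * (y ^ a * Real.exp (-a)) * (Real.exp a * (y ^ a)⁻¹) := by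
        have : kar K y * (y ^ a * Real.exp (-a)) * (Real.exp a * (y ^ a)⁻¹) =
          kar K y * (y ^ a * (y ^ a)⁻¹) * (Real.exp (-a) * Real.exp a) := by ring
        rw [this, h8, mul_inv_cancel₀ h6.ne', mul_one, mul_one]
    _ ≤ _ := h9
    _ = _ := by ring

/-- The sums are dominated by `C ∑ (N I) ^ (-b) y ^ (-b)`. -/
theorem kar_dom {b : ℝ} (hb : 0 < b) : ∃ C : ℝ, 0 < C ∧ ∀ y : ℝ, 0 < y → ∀ I : II K,
    kar K (nm K I * y) ≤ C * y ^ (-b) * nm K I ^ (-b) := by
  obtain ⟨C, hC, h⟩ := kar_bound K (a := b) hb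
  refine ⟨C, hC, fun y hy I => (h _ (mul_pos (nm_pos I) hy)).trans (le_of_eq ?_)⟩
  rw [Real.mul_rpow (nm_pos I).le hy.le]
  ring

theorem kar_summable {y : ℝ} (hy : 0 < y) : Summable fun I : II K => kar K (nm K I * y) := by
  obtain ⟨C, hC, h⟩ := kar_dom K (b := 2) (by norm_num)
  exact Summable.of_nonneg_of_le (fun I => kar_nonneg K _) (fun I => h y hy I)
    ((summable_nm K 2 (by norm_num)).mul_left _)

theorem kar_sum_pow {b : ℝ} (hb : 1 < b) : ∃ C : ℝ, 0 < C ∧ ∀ y : ℝ, 0 < y →
    ∑' I : II K, kar K (nm K I * y) ≤ C * y ^ (-b) := by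
  obtain ⟨C, hC, h⟩ := kar_dom K (b := b) (by linarith)
  have hs := summable_nm K b hb
  have hpos : 0 ≤ ∑' I : II K, nm K I ^ (-b) :=
    tsum_nonneg fun I => (Real.rpow_pos_of_pos (nm_pos I) _).le
  refine ⟨C * (∑' I : II K, nm K I ^ (-b) + 1), by positivity, fun y hy => ?_⟩
  have hy' : 0 < y ^ (-b) := Real.rpow_pos_of_pos hy _
  calc ∑' I : II K, kar K (nm K I * y)
      ≤ ∑' I : II K, C * y ^ (-b) * nm K I ^ (-b) :=
        (kar_summable K hy).tsum_le_tsum (fun I => h y hy I) (hs.mul_left _)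
    _ = C * y ^ (-b) * ∑' I : II K, nm K I ^ (-b) := tsum_mul_left
    _ ≤ C * y ^ (-b) * (∑' I : II K, nm K I ^ (-b) + 1) :=
        mul_le_mul_of_nonneg_left (by linarith) (by positivity)
    _ = C * (∑' I : II K, nm K I ^ (-b) + 1) * y ^ (-b) := by ring

end Pool.Agent.TRF
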